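import Mathlib
import Pool.Agent.H715R2.MinimalSet

/-! # Minimal sets for subgroups of the diagonal group -/

open Filter Topology Matrix

namespace Pool.Agent.TH223.W

open H715R2

variable {d : ℕ}

/-- invariance under the diagonal matrices satisfying `P` and under `GL_d(ℤ)` -/
def InvS (P : (Fin d → ℝ) → Prop) (Y : Set (Matrix (Fin d) (Fin d) ℝ)) : Prop :=
  ∀ h ∈ Y, ∀ (a : Fin d → ℝ) (γ : Matrix (Fin d) (Fin d) ℤ), (∀ i, 0 < a i) → ∏ i, a i = 1 →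
    P a → IsUnit γ.det → diagonal a * h * zR γ ∈ Y

/-- minimal closed nonempty invariant sets -/
def MinS (P : (Fin d → ℝ) → Prop) (N : Set (Matrix (Fin d) (Fin d) ℝ)) : Prop :=
  IsClosed N ∧ N.Nonempty ∧ InvS P N ∧
    ∀ Y ⊆ N, IsClosed Y → Y.Nonempty → InvS P Y → Y = N

lemma diag_one_mul (h : Matrix (Fin d) (Fin d) ℝ) : diagonal (fun _ : Fin d => (1 : ℝ)) * h = h := by
  have h2 : diagonal (fun _ : Fin d => (1 : ℝ)) = 1 := diagonal_one
  rw [h2, Matrix.one_mul]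

theorem exists_minS (hd : 0 < d) {V ν : ℝ} (hV : 0 < V) (hν : 0 < ν)
    (P : (Fin d → ℝ) → Prop) (hP1 : P (fun _ => 1))
    {Y₀ : Set (Matrix (Fin d) (Fin d) ℝ)} (hYdet : ∀ h ∈ Y₀, |h.det| = V)
    (hYnu : ∀ h ∈ Y₀, HasNu h ν) (hYc : IsClosed Y₀) (hYn : Y₀.Nonempty) (hYi : InvS P Y₀) :
    ∃ N ⊆ Y₀, MinS P N := by
  classical
  obtain ⟨R, hR⟩ := exists_bound hd V ν hV hν
  set 𝒦 : Set (Matrix (Fin d) (Fin d) ℝ) := {h | ∀ i j, |h i j| ≤ R} with h𝒦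
  have hcpt : IsCompact 𝒦 := isCompact_box R
  have hmeet : ∀ Y : Set (Matrix (Fin d) (Fin d) ℝ), Y ⊆ Y₀ → Y.Nonempty → InvS P Y →
      (Y ∩ 𝒦).Nonempty := by
    intro Y hY ⟨h, hh⟩ hinv
    obtain ⟨γ, hγ, hγR⟩ := hR h (hYdet _ (hY hh)) (hYnu _ (hY hh))
    refine ⟨h * zR γ, ?_, hγR⟩
    have h1 := hinv h hh (fun _ => 1) γ (fun _ => one_pos) (by simp) hP1 hγ
    rwa [diag_one_mul] at h1
  set S : Set (Set (Matrix (Fin d) (Fin d) ℝ)) :=
    {Y | Y ⊆ Y₀ ∧ IsClosed Y ∧ Y.Nonempty ∧ InvS P Y} with hS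
  have hx : Y₀ ∈ S := ⟨subset_rfl, hYc, hYn, hYi⟩
  obtain ⟨M, hMx, hMin⟩ := zorn_superset_nonempty S (by
    intro c hcS hchain hcne
    refine ⟨⋂₀ c, ⟨?_, ?_, ?_, ?_⟩, fun s hs => Set.sInter_subset_of_mem hs⟩
    · obtain ⟨Y, hY⟩ := hcne
      exact (Set.sInter_subset_of_mem hY).trans (hcS hY).1
    · exact isClosed_sInter fun Y hY => (hcS hY).2.1
    · have : Nonempty c := ⟨⟨hcne.some, hcne.some_mem⟩⟩
      have h1 : (⋂ Y : c, (Y : Set (Matrix (Fin d) (Fin d) ℝ)) ∩ 𝒦).Nonempty := by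
        refine IsCompact.nonempty_iInter_of_directed_nonempty_isCompact_isClosed
          (fun Y : c => (Y : Set (Matrix (Fin d) (Fin d) ℝ)) ∩ 𝒦) ?_ ?_ ?_ ?_
        · intro Y Z
          rcases hchain.total Y.2 Z.2 with h | h
          · exact ⟨Y, subset_rfl, Set.inter_subset_inter_left _ h⟩
          · exact ⟨Z, Set.inter_subset_inter_left _ h, subset_rfl⟩
        · intro Y
          exact hmeet Y (hcS Y.2).1 (hcS Y.2).2.2.1 (hcS Y.2).2.2.2
        · intro Y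
          exact hcpt.inter_left (hcS Y.2).2.1
        · intro Y
          exact (hcS Y.2).2.1.inter hcpt.isClosed
      obtain ⟨h, hh⟩ := h1
      rw [Set.mem_iInter] at hh
      exact ⟨h, fun Y hY => (hh ⟨Y, hY⟩).1⟩
    · intro h hh a γ ha0 ha hPa hγ Y hY
      exact (hcS hY).2.2.2 h (hh Y hY) a γ ha0 ha hPa hγ) _ hx
  obtain ⟨hMS, hMmin⟩ := hMin
  refine ⟨M, hMS.1, hMS.2.1, hMS.2.2.1, hMS.2.2.2, fun Y hY hYc hYn hYi => ?_⟩
  exact subset_antisymm hY (hMmin ⟨hY.trans hMS.1, hYc, hYn, hYi⟩ hY)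

/-- the one parameter subgroup with weights `w` -/
noncomputable def ew (w : Fin d → ℝ) (t : ℝ) : Fin d → ℝ := fun i => Real.exp (t * w i)

lemma ew_pos (w : Fin d → ℝ) (t : ℝ) (i : Fin d) : 0 < ew w t i := Real.exp_pos _

lemma ew_prod {w : Fin d → ℝ} (hw : ∑ i, w i = 0) (t : ℝ) : ∏ i, ew w t i = 1 := by
  simp only [ew]
  rw [← Real.exp_sum, ← Finset.mul_sum, hw, mul_zero, Real.exp_zero]

lemma ew_mul (w : Fin d → ℝ) (s t : ℝ) : (fun i => ew w s i * ew w t i) = ew w (s + t) := by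
  funext i
  simp only [ew]
  rw [← Real.exp_add, add_mul]

lemma ew_zero (w : Fin d → ℝ) : ew w 0 = fun _ => 1 := by
  funext i
  simp [ew]

lemma diag_ew_mul (w : Fin d → ℝ) (s t : ℝ) (h : Matrix (Fin d) (Fin d) ℝ) :
    diagonal (ew w s) * (diagonal (ew w t) * h) = diagonal (ew w (s + t)) * h := by
  rw [← Matrix.mul_assoc, diagonal_mul_diagonal, ew_mul]

lemma diag_ew_neg (w : Fin d → ℝ) (s : ℝ) (h : Matrix (Fin d) (Fin d) ℝ) :
    diagonal (ew w s) * (diagonal (ew w (-s)) * h) = h := by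
  rw [diag_ew_mul, add_neg_cancel, ew_zero, diag_one_mul]

lemma diag_ew_neg' (w : Fin d → ℝ) (s : ℝ) (h : Matrix (Fin d) (Fin d) ℝ) :
    diagonal (ew w (-s)) * (diagonal (ew w s) * h) = h := by
  rw [diag_ew_mul, neg_add_cancel, ew_zero, diag_one_mul]

lemma continuous_ew (w : Fin d → ℝ) : Continuous (ew w) := by
  refine continuous_pi fun i => ?_
  simp only [ew]
  fun_prop

/-- **Recurrence.** In a closed invariant set of matrices with form bounded below there is a point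
which is recurrent under a given one parameter subgroup. -/
theorem exists_recurrent (hd : 0 < d) {V ν : ℝ} (hV : 0 < V) (hν : 0 < ν)
    {M : Set (Matrix (Fin d) (Fin d) ℝ)} (hMdet : ∀ h ∈ M, |h.det| = V)
    (hMnu : ∀ h ∈ M, HasNu h ν) (hM : IsClosed M) (hne : M.Nonempty) (hinv : H715R2.Inv M)
    (w : Fin d → ℝ) (hw : ∑ i, w i = 0) :
    ∃ h ∈ M, ∀ T : ℝ, h ∈ closure {x | ∃ (t : ℝ) (γ : Matrix (Fin d) (Fin d) ℤ), T ≤ t ∧
      IsUnit γ.det ∧ x = diagonal (ew w t) * h * zR γ} := by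
  classical
  set P : (Fin d → ℝ) → Prop := fun a => ∃ t : ℝ, a = ew w t with hP
  obtain ⟨N, hNM, hNc, hNne, hNi, hNmin⟩ := exists_minS hd hV hν P ⟨0, (ew_zero w).symm⟩ hMdet hMnu hM
    hne (fun h hh a γ ha0 ha1 _ hγ => hinv h hh a γ ha0 ha1 hγ)
  obtain ⟨h, hh⟩ := hNne
  set C : ℝ → Set (Matrix (Fin d) (Fin d) ℝ) := fun T =>
    closure {x | ∃ (t : ℝ) (γ : Matrix (Fin d) (Fin d) ℤ), T ≤ t ∧
      IsUnit γ.det ∧ x = diagonal (ew w t) * h * zR γ} with hC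
  have hCN : ∀ T, C T ⊆ N := by
    intro T
    refine closure_minimal ?_ hNc
    rintro _ ⟨t, γ, _, hγ, rfl⟩
    exact hNi h hh (ew w t) γ (ew_pos w t) (ew_prod hw t) ⟨t, rfl⟩ hγ
  have hCanti : ∀ S T, S ≤ T → C T ⊆ C S := by
    intro S T hST
    refine closure_mono ?_
    rintro _ ⟨t, γ, ht, hγ, rfl⟩
    exact ⟨t, γ, hST.trans ht, hγ, rfl⟩
  have hCact : ∀ T s : ℝ, ∀ γ : Matrix (Fin d) (Fin d) ℤ, IsUnit γ.det → ∀ x ∈ C T,
      diagonal (ew w s) * x * zR γ ∈ C (T + s) := by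
    intro T s γ hγ x hx
    refine map_mem_closure (f := fun x : Matrix (Fin d) (Fin d) ℝ => diagonal (ew w s) * x * zR γ)
      ((continuous_const.matrix_mul continuous_id).matrix_mul continuous_const) hx ?_
    rintro _ ⟨t, δ, ht, hδ, rfl⟩
    refine ⟨t + s, δ * γ, by linarith, ?_, ?_⟩
    · rw [det_mul]; exact hδ.mul hγ
    · show diagonal (ew w s) * (diagonal (ew w t) * h * zR δ) * zR γ = _
      rw [zR_mul, Matrix.mul_assoc (diagonal (ew w t)), diag_ew_mul, add_comm]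
      simp only [Matrix.mul_assoc]
  -- the omega limit set
  set Ω : Set (Matrix (Fin d) (Fin d) ℝ) := ⋂ n : ℕ, C n with hΩ
  have hΩN : Ω ⊆ N := fun x hx => hCN _ (Set.mem_iInter.1 hx 0)
  have hΩc : IsClosed Ω := isClosed_iInter fun n => isClosed_closure
  have hΩi : InvS P Ω := by
    rintro x hx a γ _ _ ⟨s, rfl⟩ hγ
    refine Set.mem_iInter.2 fun n => ?_
    obtain ⟨m, hm⟩ := exists_nat_ge ((n : ℝ) - s)
    have h1 := hCact (m : ℝ) s γ hγ x (Set.mem_iInter.1 hx m)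
    exact hCanti _ _ (by linarith) h1
  have hΩne : Ω.Nonempty := by
    obtain ⟨R, hR⟩ := exists_bound hd V ν hV hν
    have hcpt : IsCompact {h : Matrix (Fin d) (Fin d) ℝ | ∀ i j, |h i j| ≤ R} := isCompact_box R
    have hpt : ∀ n : ℕ, ∃ x : Matrix (Fin d) (Fin d) ℝ, x ∈ C n ∧ ∀ i j, |x i j| ≤ R := by
      intro n
      have h1 : diagonal (ew w n) * h ∈ N := by
        have := hNi h hh (ew w n) 1 (ew_pos w _) (ew_prod hw _) ⟨n, rfl⟩ (by simp)
        rwa [zR_one, Matrix.mul_one] at this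
      obtain ⟨γ, hγ, hγR⟩ := hR _ (hMdet _ (hNM h1)) (hMnu _ (hNM h1))
      exact ⟨_, subset_closure ⟨n, γ, le_rfl, hγ, rfl⟩, hγR⟩
    choose x hxC hxR using hpt
    obtain ⟨y, -, φ, hφ, hlim⟩ := hcpt.tendsto_subseq hxR
    refine ⟨y, Set.mem_iInter.2 fun n => ?_⟩
    refine isClosed_closure.mem_of_tendsto hlim ?_
    filter_upwards [eventually_ge_atTop n] with m hm
    exact hCanti _ _ (by exact_mod_cast hm.trans hφ.le_apply) (hxC (φ m))
  have hΩe : Ω = N := hNmin Ω hΩN hΩc hΩne hΩi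
  refine ⟨h, hNM hh, fun T => ?_⟩
  obtain ⟨n, hn⟩ := exists_nat_ge T
  have h1 : h ∈ Ω := by rw [hΩe]; exact hh
  exact hCanti T n hn (Set.mem_iInter.1 h1 n)

end Pool.Agent.TH223.W
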