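import Mathlib
import Pool.Agent.TH223.W.MinS

/-! # Wall-minimal sets which meet a translate of themselves -/

open Filter Topology Matrix

namespace Pool.Agent.TH223.W

open H715R2

variable {d : ℕ}

lemma MinS.map {P : (Fin d → ℝ) → Prop} {N : Set (Matrix (Fin d) (Fin d) ℝ)} (hN : MinS P N)
    {c c' : Matrix (Fin d) (Fin d) ℝ} (h1 : c * c' = 1) (h2 : c' * c = 1)
    (hcomm : ∀ a, P a → diagonal a * c' = c' * diagonal a) :
    MinS P {h | c' * h ∈ N} := by
  obtain ⟨hNc, hNn, hNi, hNm⟩ := hN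
  have hcomm' : ∀ a, P a → diagonal a * c = c * diagonal a := by
    intro a ha
    have h3 : c * (diagonal a * c') * c = c * (c' * diagonal a) * c := by rw [hcomm a ha]
    rw [← Matrix.mul_assoc c c', h1, Matrix.one_mul, Matrix.mul_assoc c, Matrix.mul_assoc _ c',
      h2, Matrix.mul_one] at h3
    exact h3.symm
  have hcont : ∀ x : Matrix (Fin d) (Fin d) ℝ,
      Continuous (fun h : Matrix (Fin d) (Fin d) ℝ => x * h) := fun x =>
    continuous_const.matrix_mul continuous_id
  refine ⟨hNc.preimage (hcont c'), ?_, ?_, ?_⟩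
  · obtain ⟨h, hh⟩ := hNn
    refine ⟨c * h, ?_⟩
    rw [Set.mem_ofPred_eq, ← Matrix.mul_assoc, h2, Matrix.one_mul]
    exact hh
  · intro h hh a γ ha0 ha1 hPa hγ
    have h3 := hNi _ hh a γ ha0 ha1 hPa hγ
    rw [Set.mem_ofPred_eq, ← Matrix.mul_assoc, ← Matrix.mul_assoc, ← hcomm a hPa]
    rw [← Matrix.mul_assoc] at h3
    exact h3
  · intro Y hY hYc hYn hYi
    have h3 : {h | c * h ∈ Y} = N := by
      refine hNm _ ?_ (hYc.preimage (hcont c)) ?_ ?_
      · intro h hh
        have := hY hh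
        rw [Set.mem_ofPred_eq, ← Matrix.mul_assoc, h2, Matrix.one_mul] at this
        exact this
      · obtain ⟨h, hh⟩ := hYn
        refine ⟨c' * h, ?_⟩
        rw [Set.mem_ofPred_eq, ← Matrix.mul_assoc, h1, Matrix.one_mul]
        exact hh
      · intro h hh a γ ha0 ha1 hPa hγ
        have h3 := hYi _ hh a γ ha0 ha1 hPa hγ
        rw [Set.mem_ofPred_eq, ← Matrix.mul_assoc, ← Matrix.mul_assoc, ← hcomm' a hPa]
        rw [← Matrix.mul_assoc] at h3
        exact h3
    refine subset_antisymm hY fun h hh => ?_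
    have h4 : c' * h ∈ {h | c * h ∈ Y} := by rw [h3]; exact hh
    rw [Set.mem_ofPred_eq, ← Matrix.mul_assoc, h1, Matrix.one_mul] at h4
    exact h4

lemma MinS.eq_of_inter {P : (Fin d → ℝ) → Prop} {N N' : Set (Matrix (Fin d) (Fin d) ℝ)}
    (hN : MinS P N) (hN' : MinS P N') (hne : (N ∩ N').Nonempty) : N = N' := by
  have hi : InvS P (N ∩ N') := fun h hh a γ ha0 ha1 hPa hγ =>
    ⟨hN.2.2.1 h hh.1 a γ ha0 ha1 hPa hγ, hN'.2.2.1 h hh.2 a γ ha0 ha1 hPa hγ⟩
  have h1 := hN.2.2.2 (N ∩ N') Set.inter_subset_left (hN.1.inter hN'.1) hne hi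
  have h2 := hN'.2.2.2 (N ∩ N') Set.inter_subset_right (hN.1.inter hN'.1) hne hi
  exact h1.symm.trans h2

/-- the elementary unipotent matrix -/
def uu (i j : Fin d) (s : ℝ) : Matrix (Fin d) (Fin d) ℝ := 1 + Matrix.single i j s

lemma uu_mul {i j : Fin d} (hij : i ≠ j) (s t : ℝ) : uu i j s * uu i j t = uu i j (s + t) := by
  unfold uu
  rw [Matrix.add_mul, Matrix.mul_add, Matrix.mul_add, Matrix.one_mul, Matrix.one_mul,
    Matrix.mul_one, Matrix.single_mul_single_of_ne (h := hij.symm), add_zero, add_assoc,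
    ← Matrix.single_add, add_comm t s]

lemma uu_zero (i j : Fin d) : uu i j 0 = 1 := by
  unfold uu
  rw [Matrix.single_zero, add_zero]

lemma uu_apply_mulVec (i j : Fin d) (s : ℝ) (y : Fin d → ℝ) (k : Fin d) :
    (uu i j s *ᵥ y) k = y k + if k = i then s * y j else 0 := by
  unfold uu
  rw [Matrix.add_mulVec, Matrix.one_mulVec, Pi.add_apply, Matrix.single_mulVec]
  by_cases hk : k = i
  · subst hk; simp
  · simp [hk]

lemma diag_uu {a : Fin d → ℝ} (i j : Fin d) (s t : ℝ) (h : a i * s = t * a j) :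
    diagonal a * uu i j s = uu i j t * diagonal a := by
  unfold uu
  rw [Matrix.mul_add, Matrix.add_mul, Matrix.one_mul, Matrix.mul_one]
  congr 1
  ext k l
  rw [Matrix.diagonal_mul, Matrix.mul_diagonal]
  by_cases hkl : i = k ∧ j = l
  · obtain ⟨rfl, rfl⟩ := hkl
    rw [Matrix.single_apply_same, Matrix.single_apply_same]
    exact h
  · rw [Matrix.single_apply_of_ne (h := hkl), Matrix.single_apply_of_ne (h := hkl), mul_zero,
      zero_mul]

/-- weights of the one parameter group transversal to the wall -/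
noncomputable def wij (i j : Fin d) : Fin d → ℝ :=
  fun k => (if k = i then 1 / 2 else 0) - (if k = j then 1 / 2 else 0)

lemma wij_sum (i j : Fin d) : ∑ k, wij i j k = 0 := by
  classical
  simp [wij, Finset.sum_sub_distrib]

lemma wij_i {i j : Fin d} (hij : i ≠ j) : wij i j i = 1 / 2 := by simp [wij, hij]

lemma wij_j {i j : Fin d} (hij : i ≠ j) : wij i j j = - (1 / 2) := by simp [wij, hij.symm]

/-- the pairs `(n, n')` contradiction: unipotent translates of a matrix by a discrete group -/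
lemma no_unip (hd : 0 < d) {h : Matrix (Fin d) (Fin d) ℝ} {ν : ℝ} (hν : 0 < ν)
    (hdet : h.det ≠ 0) {i j : Fin d} (hij : i ≠ j) {s : ℝ} (hs : s ≠ 0)
    (hall : ∀ m : ℤ, HasNu (uu i j (m * s) * h) ν) : False := by
  classical
  have hnu : HasNu h ν := by
    have := hall 0
    rwa [Int.cast_zero, zero_mul, uu_zero, Matrix.one_mul] at this
  have hV : 0 < |h.det| := abs_pos.2 hdet
  have hfac : (0 : ℝ) < d.factorial := by positivity
  set r : ℝ := d.factorial * |h.det| + 1 with hr
  have hr1 : 1 ≤ r := by rw [hr]; nlinarith [mul_pos hfac hV]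
  have hr0 : 0 < r := by linarith
  have hrd : (d.factorial : ℝ) * |h.det| < r ^ d := by
    have h1 : r ^ 1 ≤ r ^ d := pow_le_pow_right₀ hr1 hd
    rw [pow_one] at h1
    linarith
  set T : ℝ := |s| * r ^ d / ν + 1 with hT
  have hT1 : 1 ≤ T := by
    have : 0 ≤ |s| * r ^ d / ν := by positivity
    linarith
  have hT0 : 0 < T := by linarith
  obtain ⟨m, hm, h1, h2, -⟩ := exists_vec hd hν hdet hnu hr0 hrd
    (fun k => if k = i then (T ^ (d - 1))⁻¹ else T) (fun k => by
      split_ifs <;> positivity) (by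
      rw [← Finset.mul_prod_erase Finset.univ _ (Finset.mem_univ i), if_pos rfl,
        Finset.prod_congr rfl (g := fun _ => T) (fun k hk => if_neg (Finset.ne_of_mem_erase hk)),
        Finset.prod_const, Finset.card_erase_of_mem (Finset.mem_univ i), Finset.card_univ,
        Fintype.card_fin]
      exact inv_mul_cancel₀ (by positivity))
  set y : Fin d → ℝ := h *ᵥ iR m with hy
  have hyk : ∀ k, k ≠ i → |y k| < r / T := by
    intro k hk
    have := h1 k
    rw [if_neg hk] at this
    rwa [lt_div_iff₀ hT0, mul_comm]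
  have hyj : y j ≠ 0 := by
    intro h0
    have h3 := h2 j
    rw [if_neg hij.symm, h0, abs_zero, mul_zero] at h3
    have : 0 < ν / r ^ (d - 1) := by positivity
    linarith
  set c : ℤ := round (- (y i) / (s * y j)) with hc
  have hsy : s * y j ≠ 0 := mul_ne_zero hs hyj
  have h3 : |y i + c * s * y j| ≤ |s| * |y j| := by
    have h4 := abs_sub_round (- (y i) / (s * y j))
    rw [← hc] at h4
    have h5 : y i + c * s * y j = - (s * y j) * (- (y i) / (s * y j) - c) := by
      field_simp
      ring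
    rw [h5, abs_mul, abs_neg, abs_mul]
    have h6 : 0 ≤ |s| * |y j| := by positivity
    calc |s| * |y j| * |-y i / (s * y j) - ↑c| ≤ |s| * |y j| * (1 / 2) :=
          mul_le_mul_of_nonneg_left h4 h6
      _ ≤ |s| * |y j| := by linarith
  have h4 := hall c m hm
  rw [FF_eq, ← mulVec_mulVec, ← hy, ← Finset.mul_prod_erase Finset.univ _ (Finset.mem_univ i),
    abs_mul, Finset.abs_prod] at h4
  have h5 : ∀ k ∈ Finset.univ.erase i, |(uu i j (c * s) *ᵥ y) k| ≤ r / T := by
    intro k hk
    rw [uu_apply_mulVec, if_neg (Finset.ne_of_mem_erase hk), add_zero]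
    exact (hyk k (Finset.ne_of_mem_erase hk)).le
  have h6 : ∏ k ∈ Finset.univ.erase i, |(uu i j (c * s) *ᵥ y) k| ≤ (r / T) ^ (d - 1) := by
    refine (Finset.prod_le_prod (fun k _ => abs_nonneg _) h5).trans (le_of_eq ?_)
    rw [Finset.prod_const, Finset.card_erase_of_mem (Finset.mem_univ i), Finset.card_univ,
      Fintype.card_fin]
  have h7 : |(uu i j (c * s) *ᵥ y) i| ≤ |s| * (r / T) := by
    rw [uu_apply_mulVec, if_pos rfl]
    exact h3.trans (mul_le_mul_of_nonneg_left (hyk j hij.symm).le (abs_nonneg s))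
  have h8 : ν ≤ |s| * (r / T) * (r / T) ^ (d - 1) :=
    h4.trans (mul_le_mul h7 h6 (Finset.prod_nonneg fun k _ => abs_nonneg _) (by positivity))
  have h9 : |s| * (r / T) * (r / T) ^ (d - 1) = |s| * r ^ d / T ^ d := by
    rw [mul_assoc, ← pow_succ', Nat.sub_add_cancel hd, div_pow]
    ring
  rw [h9, le_div_iff₀ (by positivity)] at h8
  have h10 : T ≤ T ^ d := by
    have := pow_le_pow_right₀ hT1 hd
    rwa [pow_one] at this
  have h11 : ν * T ≤ |s| * r ^ d := (mul_le_mul_of_nonneg_left h10 hν.le).trans h8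
  have h12 : ν * T = |s| * r ^ d + ν := by
    rw [hT]; field_simp
  linarith

/-- **No periods.** -/
theorem no_period (hd : 0 < d) {V ν : ℝ} (hV : 0 < V) (hν : 0 < ν)
    {M : Set (Matrix (Fin d) (Fin d) ℝ)} (hMdet : ∀ h ∈ M, |h.det| = V)
    (hMnu : ∀ h ∈ M, HasNu h ν) (hM : MinS (fun _ => True) M) {i j : Fin d} (hij : i ≠ j)
    {s : ℝ} (hs : s ≠ 0) {N : Set (Matrix (Fin d) (Fin d) ℝ)}
    (hN : MinS (fun a => a i = a j) N) (hNM : N ⊆ M) (hNs : ∀ h ∈ N, uu i j s * h ∈ M)
    (a : Fin d → ℝ) (ha0 : ∀ k, 0 < a k) (ha1 : ∏ k, a k = 1) (haij : a i ≠ a j)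
    (hne : ∃ h ∈ N, diagonal a * h ∈ N) : False := by
  classical
  set w := wij i j with hw
  have hw0 : ∑ k, w k = 0 := wij_sum i j
  have hwi : w i = 1 / 2 := wij_i hij
  have hwj : w j = - (1 / 2) := wij_j hij
  -- the translates
  set Nt : ℝ → Set (Matrix (Fin d) (Fin d) ℝ) := fun t => {h | diagonal (ew w (-t)) * h ∈ N}
    with hNt
  have hewinv : ∀ t, diagonal (ew w t) * diagonal (ew w (-t)) = 1 := by
    intro t
    have := diag_ew_neg w t (1 : Matrix (Fin d) (Fin d) ℝ)
    rwa [Matrix.mul_one] at this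
  have hewinv' : ∀ t, diagonal (ew w (-t)) * diagonal (ew w t) = 1 := by
    intro t
    have := diag_ew_neg' w t (1 : Matrix (Fin d) (Fin d) ℝ)
    rwa [Matrix.mul_one] at this
  have hNtmin : ∀ t, MinS (fun a => a i = a j) (Nt t) := by
    intro t
    refine hN.map (hewinv t) (hewinv' t) fun b _ => ?_
    rw [diagonal_mul_diagonal, diagonal_mul_diagonal]
    congr 1
    funext k
    exact mul_comm _ _
  have hNtadd : ∀ s t h, h ∈ Nt t → diagonal (ew w s) * h ∈ Nt (s + t) := by
    intro s t h hh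
    simp only [hNt, Set.mem_ofPred_eq] at hh ⊢
    rw [diag_ew_mul]
    have : -(s + t) + s = -t := by ring
    rw [this]
    exact hh
  have hN0 : Nt 0 = N := by
    ext h
    simp only [hNt, Set.mem_ofPred_eq, neg_zero, ew_zero, diag_one_mul]
  -- a general diagonal matrix
  have hgen : ∀ b : Fin d → ℝ, (∀ k, 0 < b k) → ∏ k, b k = 1 → ∀ γ : Matrix (Fin d) (Fin d) ℤ,
      IsUnit γ.det → ∀ t, ∀ h ∈ Nt t, diagonal b * h * zR γ ∈ Nt (Real.log (b i / b j) + t) := by
    intro b hb0 hb1 γ hγ t h hh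
    set q := Real.log (b i / b j) with hq
    have h1 := hNtadd q t h hh
    have h2 := (hNtmin (q + t)).2.2.1 _ h1 (fun k => b k * ew w (-q) k) γ
      (fun k => mul_pos (hb0 k) (ew_pos w _ k))
      (by rw [Finset.prod_mul_distrib, hb1, ew_prod hw0, one_mul]) (by
        show b i * ew w (-q) i = b j * ew w (-q) j
        simp only [ew]
        rw [hwi, hwj]
        have h3 : Real.exp (-q * -(1 / 2)) = Real.exp (-q * (1 / 2)) * Real.exp q := by
          rw [← Real.exp_add]; congr 1; ring
        rw [h3, hq, Real.exp_log (div_pos (hb0 i) (hb0 j))]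
        have := (hb0 j).ne'
        field_simp) hγ
    rw [← diagonal_mul_diagonal, Matrix.mul_assoc (diagonal b), diag_ew_neg'] at h2
    exact h2
  -- a period
  obtain ⟨p, hp0, hNp⟩ : ∃ p : ℝ, 0 < p ∧ Nt p = N := by
    obtain ⟨h, hh, hah⟩ := hne
    set q := Real.log (a i / a j) with hq
    have hq0 : q ≠ 0 := by
      intro h0
      rcases Real.log_eq_zero.1 h0 with h1 | h1 | h1
      · rcases div_eq_zero_iff.1 h1 with h2 | h2
        · exact (ha0 i).ne' h2
        · exact (ha0 j).ne' h2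
      · exact haij ((div_eq_one_iff_eq (ha0 j).ne').1 h1)
      · have := div_pos (ha0 i) (ha0 j)
        rw [h1] at this
        linarith
    have h1 := hgen a ha0 ha1 1 (by simp) 0 h (by rw [hN0]; exact hh)
    rw [zR_one, Matrix.mul_one, add_zero] at h1
    have h2 : N = Nt q := MinS.eq_of_inter hN (hNtmin q) ⟨_, hah, h1⟩
    rcases lt_or_gt_of_ne hq0 with h3 | h3
    · refine ⟨-q, by linarith, ?_⟩
      ext x
      constructor
      · intro hx
        simp only [hNt, Set.mem_ofPred_eq, neg_neg] at hx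
        rw [h2] at hx
        simp only [hNt, Set.mem_ofPred_eq] at hx
        rwa [diag_ew_neg'] at hx
      · intro hx
        simp only [hNt, Set.mem_ofPred_eq, neg_neg]
        have h4 := hNtadd q 0 x (by rw [hN0]; exact hx)
        rw [add_zero, ← h2] at h4
        exact h4
    · exact ⟨q, h3, h2.symm⟩
  have hshift : ∀ t, Nt (t + p) = Nt t := by
    intro t
    ext x
    have h1 : diagonal (ew w (-(t + p))) * x = diagonal (ew w (-p)) * (diagonal (ew w (-t)) * x) := by
      rw [diag_ew_mul]; congr 3; ring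
    have h2 : diagonal (ew w (-t)) * x ∈ Nt p ↔ diagonal (ew w (-t)) * x ∈ N := by rw [hNp]
    simp only [hNt, Set.mem_ofPred_eq] at h2 ⊢
    rw [h1]
    exact h2
  have hshiftn : ∀ n : ℕ, ∀ t, Nt (t + n * p) = Nt t := by
    intro n
    induction n with
    | zero => intro t; rw [Nat.cast_zero, zero_mul, add_zero]
    | succ n ih =>
      intro t
      have h1 : t + ((n + 1 : ℕ) : ℝ) * p = (t + n * p) + p := by push_cast; ring
      rw [h1, hshift, ih]
  have hshiftz : ∀ n : ℤ, ∀ t, Nt (t + n * p) = Nt t := by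
    intro n t
    rcases Int.eq_nat_or_neg n with ⟨m, rfl | rfl⟩
    · rw [Int.cast_natCast]; exact hshiftn m t
    · have h1 := hshiftn m (t + ((-(m : ℤ) : ℤ) : ℝ) * p)
      rw [← h1]
      congr 1
      push_cast
      ring
  -- the union of the translates is everything
  set U : Set (Matrix (Fin d) (Fin d) ℝ) := {h | ∃ t ∈ Set.Icc 0 p, h ∈ Nt t} with hU
  have hUall : ∀ t, Nt t ⊆ U := by
    intro t h hh
    set n : ℤ := ⌊t / p⌋ with hn
    refine ⟨t - n * p, ⟨?_, ?_⟩, ?_⟩
    · have := Int.floor_le (t / p)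
      rw [le_div_iff₀ hp0] at this
      linarith
    · have := (Int.lt_floor_add_one (t / p)).le
      rw [div_le_iff₀ hp0, add_mul, one_mul] at this
      linarith
    · have h1 := hshiftz (-n) t
      have h2 : t + ((-n : ℤ) : ℝ) * p = t - n * p := by push_cast; ring
      rw [h2] at h1
      rw [h1]
      exact hh
  have hUc : IsClosed U := by
    rw [← closure_subset_iff_isClosed]
    intro h hh
    obtain ⟨u, hu, hlim⟩ := exists_seq_of_mem_closure hh
    choose t htI ht using hu
    obtain ⟨t', ht'I, φ, hφ, hlimt⟩ := isCompact_Icc.tendsto_subseq htI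
    refine ⟨t', ht'I, ?_⟩
    have hcont : Continuous (fun x : ℝ × Matrix (Fin d) (Fin d) ℝ =>
        diagonal (ew w (-x.1)) * x.2) := by
      refine Continuous.matrix_mul ?_ continuous_snd
      exact ((continuous_ew w).comp (continuous_neg.comp continuous_fst)).matrix_diagonal
    have h1 : Tendsto (fun n => ((t ∘ φ) n, u (φ n))) atTop (𝓝 (t', h)) :=
      hlimt.prodMk_nhds (hlim.comp hφ.tendsto_atTop)
    exact hN.1.mem_of_tendsto ((hcont.tendsto (t', h)).comp h1)
      (Eventually.of_forall fun n => ht (φ n))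
  have hUi : InvS (fun _ => True) U := by
    rintro h ⟨t, _, ht⟩ b γ hb0 hb1 _ hγ
    exact hUall _ (hgen b hb0 hb1 γ hγ t h ht)
  have hNtM : ∀ t, Nt t ⊆ M := by
    intro t h hh
    have h1 := hM.2.2.1 _ (hNM hh) (ew w t) 1 (ew_pos w t) (ew_prod hw0 t) trivial (by simp)
    rwa [zR_one, Matrix.mul_one, diag_ew_neg] at h1
  have hUM : U = M := by
    refine hM.2.2.2 U ?_ hUc ?_ hUi
    · rintro h ⟨t, _, ht⟩
      exact hNtM t ht
    · obtain ⟨h, hh⟩ := hN.2.1
      exact ⟨h, hUall 0 (by rw [hN0]; exact hh)⟩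
  -- the unipotent translate of a point of `N` is in `N`
  obtain ⟨h, hh⟩ := hN.2.1
  have hush : uu i j s * h ∈ N := by
    have h1 := hNs h hh
    rw [← hUM] at h1
    obtain ⟨t, -, ht⟩ := h1
    obtain ⟨R, hR⟩ := exists_bound hd V ν hV hν
    have hy : ∀ n : ℕ, diagonal (ew w (-(n * p))) * h ∈ N := by
      intro n
      have h2 : Nt (0 + n * p) = Nt 0 := hshiftn n 0
      have h3 : h ∈ Nt (0 + n * p) := by rw [h2, hN0]; exact hh
      simp only [hNt, Set.mem_ofPred_eq, zero_add] at h3
      exact h3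
    have hγ : ∀ n : ℕ, ∃ γ : Matrix (Fin d) (Fin d) ℤ, IsUnit γ.det ∧
        ∀ k l, |(diagonal (ew w (-(n * p))) * h * zR γ) k l| ≤ R := fun n =>
      hR _ (hMdet _ (hNM (hy n))) (hMnu _ (hNM (hy n)))
    choose γ hγu hγR using hγ
    obtain ⟨y, -, φ, hφ, hlim⟩ := (isCompact_box (d := d) R).tendsto_subseq hγR
    have hyN : ∀ n : ℕ, diagonal (ew w (-(n * p))) * h * zR (γ n) ∈ N := by
      intro n
      have := hN.2.2.1 _ (hy n) (fun _ => 1) (γ n) (fun _ => one_pos) (by simp) rfl (hγu n)
      rwa [diag_one_mul] at this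
    have hy1 : y ∈ N := hN.1.mem_of_tendsto hlim (Eventually.of_forall fun n => hyN _)
    have hy2 : y ∈ Nt t := by
      -- the unipotent translates tend to `y`
      have hsn : Tendsto (fun n : ℕ => Real.exp (-((φ n : ℝ) * p)) * s) atTop (𝓝 0) := by
        have h2 : Tendsto (fun n : ℕ => (φ n : ℝ) * p) atTop atTop :=
          (tendsto_natCast_atTop_atTop.comp hφ.tendsto_atTop).atTop_mul_const hp0
        have h3 := (Real.tendsto_exp_atBot.comp (tendsto_neg_atTop_atBot.comp h2)).mul_const s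
        rwa [zero_mul] at h3
      have huc : Continuous (fun x : ℝ => uu i j x) := by
        unfold uu
        refine continuous_const.add ?_
        refine continuous_pi fun k => continuous_pi fun l => ?_
        by_cases hkl : i = k ∧ j = l
        · obtain ⟨rfl, rfl⟩ := hkl
          simp only [Matrix.single_apply_same]
          exact continuous_id
        · simp only [Matrix.single_apply_of_ne (h := hkl)]
          exact continuous_const
      have hlim2 : Tendsto (fun n => uu i j (Real.exp (-((φ n : ℝ) * p)) * s) *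
          (diagonal (ew w (-(φ n * p))) * h * zR (γ (φ n)))) atTop (𝓝 (uu i j 0 * y)) :=
        ((huc.tendsto 0).comp hsn).mul hlim
      rw [uu_zero, Matrix.one_mul] at hlim2
      refine (hNtmin t).1.mem_of_tendsto hlim2 (Eventually.of_forall fun n => ?_)
      have h2 : uu i j (Real.exp (-((φ n : ℝ) * p)) * s) * diagonal (ew w (-(φ n * p)))
          = diagonal (ew w (-(φ n * p))) * uu i j s := by
        refine (diag_uu i j s _ ?_).symm
        simp only [ew]
        rw [hwi, hwj]
        have h3 : Real.exp (-((φ n : ℝ) * p) * (1 / 2)) =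
            Real.exp (-((φ n : ℝ) * p)) * Real.exp (-((φ n : ℝ) * p) * -(1 / 2)) := by
          rw [← Real.exp_add]; congr 1; ring
        rw [h3]
        ring
      have h3 : uu i j (Real.exp (-((φ n : ℝ) * p)) * s) *
          (diagonal (ew w (-(φ n * p))) * h * zR (γ (φ n))) =
          diagonal (ew w (-(φ n * p))) * (uu i j s * h) * zR (γ (φ n)) := by
        rw [← Matrix.mul_assoc, ← Matrix.mul_assoc, h2]
        simp only [Matrix.mul_assoc]
      rw [h3]
      have h4 := hNtadd (-(φ n * p)) t _ ht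
      have h5 : -((φ n : ℝ) * p) + t = t + ((-(φ n : ℤ) : ℤ) : ℝ) * p := by push_cast; ring
      rw [h5, hshiftz] at h4
      have h6 := (hNtmin t).2.2.1 _ h4 (fun _ => 1) (γ (φ n)) (fun _ => one_pos) (by simp) rfl
        (hγu _)
      rwa [diag_one_mul] at h6
    have h2 : N = Nt t := MinS.eq_of_inter hN (hNtmin t) ⟨y, hy1, hy2⟩
    rw [h2]
    exact ht
  -- hence the whole discrete unipotent group preserves `N`
  have hcomm : ∀ x : ℝ, ∀ b : Fin d → ℝ, b i = b j → diagonal b * uu i j x = uu i j x * diagonal b := by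
    intro x b hb
    refine diag_uu i j x x ?_
    rw [hb, mul_comm]
  have huinv : ∀ x : ℝ, uu i j x * uu i j (-x) = 1 := by
    intro x
    rw [uu_mul hij, add_neg_cancel, uu_zero]
  have huinv' : ∀ x : ℝ, uu i j (-x) * uu i j x = 1 := by
    intro x
    rw [uu_mul hij, neg_add_cancel, uu_zero]
  have h1 : N = {x | uu i j (-s) * x ∈ N} := by
    refine MinS.eq_of_inter hN (hN.map (huinv s) (huinv' s) (hcomm (-s))) ⟨uu i j s * h, hush, ?_⟩
    rw [Set.mem_ofPred_eq, ← Matrix.mul_assoc, huinv', Matrix.one_mul]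
    exact hh
  have hup : ∀ x ∈ N, uu i j s * x ∈ N := by
    intro x hx
    rw [h1, Set.mem_ofPred_eq, ← Matrix.mul_assoc, huinv', Matrix.one_mul]
    exact hx
  have hdn : ∀ x ∈ N, uu i j (-s) * x ∈ N := by
    intro x hx
    rw [h1] at hx
    exact hx
  have hupn : ∀ n : ℕ, ∀ x ∈ N, uu i j (n * s) * x ∈ N := by
    intro n
    induction n with
    | zero => intro x hx; rwa [Nat.cast_zero, zero_mul, uu_zero, Matrix.one_mul]
    | succ n ih =>
      intro x hx
      have h2 : ((n + 1 : ℕ) : ℝ) * s = s + n * s := by push_cast; ring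
      rw [h2, ← uu_mul hij, Matrix.mul_assoc]
      exact hup _ (ih x hx)
  have hdnn : ∀ n : ℕ, ∀ x ∈ N, uu i j (-(n * s)) * x ∈ N := by
    intro n
    induction n with
    | zero => intro x hx; rwa [Nat.cast_zero, zero_mul, neg_zero, uu_zero, Matrix.one_mul]
    | succ n ih =>
      intro x hx
      have h2 : -(((n + 1 : ℕ) : ℝ) * s) = -s + -(n * s) := by push_cast; ring
      rw [h2, ← uu_mul hij, Matrix.mul_assoc]
      exact hdn _ (ih x hx)
  have hdet : h.det ≠ 0 := by
    intro h0
    have := hMdet h (hNM hh)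
    rw [h0, abs_zero] at this
    exact hV.ne this
  refine no_unip hd hν hdet hij hs (h := h) fun m => ?_
  rcases Int.eq_nat_or_neg m with ⟨n, rfl | rfl⟩
  · rw [Int.cast_natCast]
    exact hMnu _ (hNM (hupn n h hh))
  · rw [Int.cast_neg, Int.cast_natCast, neg_mul]
    exact hMnu _ (hNM (hdnn n h hh))

end Pool.Agent.TH223.W
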