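import Mathlib
import Pool.Agent.TH223.W.Stab

/-! # Unipotent translates of wall-minimal sets are not diagonal translates -/

open Filter Topology Matrix

namespace Pool.Agent.TH223.W

open H715R2

variable {d : ℕ}

lemma continuous_uu (i j : Fin d) : Continuous (fun x : ℝ => uu i j x) := by
  unfold uu
  refine continuous_const.add ?_
  refine continuous_pi fun k => continuous_pi fun l => ?_
  by_cases hkl : i = k ∧ j = l
  · obtain ⟨rfl, rfl⟩ := hkl
    simp only [Matrix.single_apply_same]
    exact continuous_id
  · simp only [Matrix.single_apply_of_ne (h := hkl)]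
    exact continuous_const

/-- a unipotent translate of `N` does not meet a diagonal translate of `N` -/
theorem no_affine (hd : 0 < d) {V ν : ℝ} (hV : 0 < V) (hν : 0 < ν)
    {M : Set (Matrix (Fin d) (Fin d) ℝ)} (hMdet : ∀ h ∈ M, |h.det| = V)
    (hMnu : ∀ h ∈ M, HasNu h ν) (hM : MinS (fun _ => True) M) {i j : Fin d} (hij : i ≠ j)
    {s : ℝ} (hs : s ≠ 0) {N : Set (Matrix (Fin d) (Fin d) ℝ)}
    (hN : MinS (fun a => a i = a j) N) (hNM : N ⊆ M)
    (a : Fin d → ℝ) (ha0 : ∀ k, 0 < a k) (ha1 : ∏ k, a k = 1)
    (hne : ∃ h ∈ N, ∃ h' ∈ N, uu i j s * h = diagonal a * h') : False := by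
  classical
  set w := wij i j with hw
  have hw0 : ∑ k, w k = 0 := wij_sum i j
  have hwi : w i = 1 / 2 := wij_i hij
  have hwj : w j = - (1 / 2) := wij_j hij
  have huinv : ∀ x : ℝ, uu i j x * uu i j (-x) = 1 := by
    intro x
    rw [uu_mul hij, add_neg_cancel, uu_zero]
  have huinv' : ∀ x : ℝ, uu i j (-x) * uu i j x = 1 := by
    intro x
    rw [uu_mul hij, neg_add_cancel, uu_zero]
  have hcomm : ∀ x : ℝ, ∀ b : Fin d → ℝ, b i = b j → diagonal b * uu i j x = uu i j x * diagonal b := by
    intro x b hb
    refine diag_uu i j x x ?_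
    rw [hb, mul_comm]
  have hew : ∀ t x : ℝ, diagonal (ew w t) * uu i j x =
      uu i j (Real.exp t * x) * diagonal (ew w t) := by
    intro t x
    refine diag_uu i j _ _ ?_
    simp only [ew]
    rw [hwi, hwj]
    have h3 : Real.exp (t * (1 / 2)) = Real.exp t * Real.exp (t * -(1 / 2)) := by
      rw [← Real.exp_add]; congr 1; ring
    rw [h3]
    ring
  have hewinv : ∀ t, diagonal (ew w t) * diagonal (ew w (-t)) = 1 := by
    intro t
    have := diag_ew_neg w t (1 : Matrix (Fin d) (Fin d) ℝ)
    rwa [Matrix.mul_one] at this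
  have hewinv' : ∀ t, diagonal (ew w (-t)) * diagonal (ew w t) = 1 := by
    intro t
    have := diag_ew_neg' w t (1 : Matrix (Fin d) (Fin d) ℝ)
    rwa [Matrix.mul_one] at this
  -- reduction to the one parameter group
  set t := Real.log (a i / a j) with ht
  have hmem : ∃ h ∈ N, diagonal (ew w (-t)) * (uu i j s * h) ∈ N := by
    obtain ⟨h, hh, h', hh', he⟩ := hne
    refine ⟨h, hh, ?_⟩
    rw [he]
    have h2 := hN.2.2.1 _ hh' (fun k => ew w (-t) k * a k) 1
      (fun k => mul_pos (ew_pos w _ k) (ha0 k))
      (by rw [Finset.prod_mul_distrib, ha1, ew_prod hw0, one_mul]) (by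
        show ew w (-t) i * a i = ew w (-t) j * a j
        simp only [ew]
        rw [hwi, hwj]
        have h3 : Real.exp (-t * -(1 / 2)) = Real.exp (-t * (1 / 2)) * Real.exp t := by
          rw [← Real.exp_add]; congr 1; ring
        rw [h3, ht, Real.exp_log (div_pos (ha0 i) (ha0 j))]
        have := (ha0 j).ne'
        field_simp) (by simp)
    rw [zR_one, Matrix.mul_one, ← diagonal_mul_diagonal, Matrix.mul_assoc] at h2
    exact h2
  -- the stabiliser
  have hNeq : N = {x | uu i j (-s) * (diagonal (ew w t) * x) ∈ N} := by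
    have h1 : MinS (fun a => a i = a j) {x | (uu i j (-s) * diagonal (ew w t)) * x ∈ N} := by
      refine hN.map (c := diagonal (ew w (-t)) * uu i j s) ?_ ?_ ?_
      · rw [Matrix.mul_assoc, ← Matrix.mul_assoc (uu i j s), huinv, Matrix.one_mul, hewinv']
      · rw [Matrix.mul_assoc, ← Matrix.mul_assoc (diagonal (ew w t)), hewinv, Matrix.one_mul,
          huinv']
      · intro b hb
        rw [← Matrix.mul_assoc, hcomm _ b hb, Matrix.mul_assoc, Matrix.mul_assoc,
          diagonal_mul_diagonal, diagonal_mul_diagonal]
        congr 2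
        funext k
        exact mul_comm _ _
    have h2 : {x | (uu i j (-s) * diagonal (ew w t)) * x ∈ N} =
        {x | uu i j (-s) * (diagonal (ew w t) * x) ∈ N} := by
      ext x
      simp only [Set.mem_ofPred_eq, Matrix.mul_assoc]
    rw [← h2]
    refine MinS.eq_of_inter hN h1 ?_
    obtain ⟨h, hh, hh2⟩ := hmem
    refine ⟨_, hh2, ?_⟩
    rw [Set.mem_ofPred_eq, Matrix.mul_assoc, diag_ew_neg, ← Matrix.mul_assoc, huinv',
      Matrix.one_mul]
    exact hh
  have hfwd : ∀ x ∈ N, uu i j (-s) * (diagonal (ew w t) * x) ∈ N := by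
    intro x hx
    rw [hNeq] at hx
    exact hx
  have hbwd : ∀ x ∈ N, diagonal (ew w (-t)) * (uu i j s * x) ∈ N := by
    intro x hx
    rw [hNeq, Set.mem_ofPred_eq, diag_ew_neg, ← Matrix.mul_assoc, huinv', Matrix.one_mul]
    exact hx
  obtain ⟨h, hh⟩ := hN.2.1
  have hdet : h.det ≠ 0 := by
    intro h0
    have := hMdet h (hNM hh)
    rw [h0, abs_zero] at this
    exact hV.ne this
  by_cases ht0 : t = 0
  · -- the unipotent element stabilises `N`
    have hup : ∀ x ∈ N, uu i j s * x ∈ N := by
      intro x hx
      have := hbwd x hx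
      rwa [ht0, neg_zero, ew_zero, diag_one_mul] at this
    have hdn : ∀ x ∈ N, uu i j (-s) * x ∈ N := by
      intro x hx
      have := hfwd x hx
      rwa [ht0, ew_zero, diag_one_mul] at this
    have hupn : ∀ n : ℕ, ∀ x ∈ N, uu i j (n * s) * x ∈ N := by
      intro n
      induction n with
      | zero => intro x hx; rwa [Nat.cast_zero, zero_mul, uu_zero, Matrix.one_mul]
      | succ n ih =>
        intro x hx
        have h2 : ((n + 1 : ℕ) : ℝ) * s = s + n * s := by push_cast; ring
        rw [h2, ← uu_mul hij, Matrix.mul_assoc]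
        exact hup _ (ih x hx)
    have hdnn : ∀ n : ℕ, ∀ x ∈ N, uu i j (-(n * s)) * x ∈ N := by
      intro n
      induction n with
      | zero => intro x hx; rwa [Nat.cast_zero, zero_mul, neg_zero, uu_zero, Matrix.one_mul]
      | succ n ih =>
        intro x hx
        have h2 : -(((n + 1 : ℕ) : ℝ) * s) = -s + -(n * s) := by push_cast; ring
        rw [h2, ← uu_mul hij, Matrix.mul_assoc]
        exact hdn _ (ih x hx)
    refine no_unip hd hν hdet hij hs (h := h) fun m => ?_
    rcases Int.eq_nat_or_neg m with ⟨n, rfl | rfl⟩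
    · rw [Int.cast_natCast]
      exact hMnu _ (hNM (hupn n h hh))
    · rw [Int.cast_neg, Int.cast_natCast, neg_mul]
      exact hMnu _ (hNM (hdnn n h hh))
  · -- a fixed point of the affine map
    have hexp : 1 - Real.exp t ≠ 0 := by
      intro h0
      exact ht0 (Real.exp_eq_one_iff t |>.1 (by linarith))
    set x := s / (1 - Real.exp t) with hx
    have hx0 : x ≠ 0 := div_ne_zero hs hexp
    have hxs : x - Real.exp t * x = s := by
      rw [hx]; field_simp
    -- `u(x) N ⊆ M`
    have hiter : ∀ y ∈ N, ∀ n : ℕ, (uu i j (x - Real.exp (n * t) * x) * y ∈ M) ∧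
        (uu i j (x - Real.exp (-(n * t)) * x) * y ∈ M) := by
      intro y hy n
      have hMact : ∀ r : ℝ, ∀ z ∈ M, diagonal (ew w r) * z ∈ M := by
        intro r z hz
        have := hM.2.2.1 _ hz (ew w r) 1 (ew_pos w r) (ew_prod hw0 r) trivial (by simp)
        rwa [zR_one, Matrix.mul_one] at this
      -- iterates of the stabiliser
      have h1 : ∀ n : ℕ, ∀ y ∈ N,
          diagonal (ew w (-(n * t))) * (uu i j (x - Real.exp (n * t) * x) * y) ∈ N := by
        intro n
        induction n with
        | zero =>
          intro y hy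
          rw [Nat.cast_zero, zero_mul, Real.exp_zero, one_mul, sub_self, uu_zero, Matrix.one_mul,
            neg_zero, ew_zero, diag_one_mul]
          exact hy
        | succ n ih =>
          intro y hy
          have h2 := hbwd _ (ih y hy)
          have h3 : uu i j s * (diagonal (ew w (-(n * t))) * (uu i j (x - Real.exp (n * t) * x) * y))
              = diagonal (ew w (-(n * t))) *
                (uu i j (x - Real.exp (((n + 1 : ℕ) : ℝ) * t) * x) * y) := by
            have h4 : uu i j s * diagonal (ew w (-(n * t))) =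
                diagonal (ew w (-(n * t))) * uu i j (Real.exp (n * t) * s) := by
              rw [hew, ← mul_assoc, ← Real.exp_add, neg_add_cancel, Real.exp_zero, one_mul]
            rw [← Matrix.mul_assoc, h4, Matrix.mul_assoc, ← Matrix.mul_assoc (uu i j _), uu_mul hij]
            congr 3
            rw [← hxs]
            have h5 : Real.exp (((n + 1 : ℕ) : ℝ) * t) = Real.exp (n * t) * Real.exp t := by
              rw [← Real.exp_add]; congr 1; push_cast; ring
            rw [h5]
            ring
          rw [h3, diag_ew_mul] at h2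
          have h4 : -t + -((n : ℝ) * t) = -(((n + 1 : ℕ) : ℝ) * t) := by push_cast; ring
          rwa [h4] at h2
      have h1' : ∀ n : ℕ, ∀ y ∈ N,
          diagonal (ew w (n * t)) * (uu i j (x - Real.exp (-(n * t)) * x) * y) ∈ N := by
        intro n
        induction n with
        | zero =>
          intro y hy
          rw [Nat.cast_zero, zero_mul, neg_zero, Real.exp_zero, one_mul, sub_self, uu_zero,
            Matrix.one_mul, ew_zero, diag_one_mul]
          exact hy
        | succ n ih =>
          intro y hy
          have h2 := hfwd _ (ih y hy)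
          have h3 : uu i j (-s) * (diagonal (ew w t) * (diagonal (ew w (n * t)) *
              (uu i j (x - Real.exp (-(n * t)) * x) * y)))
              = diagonal (ew w (((n + 1 : ℕ) : ℝ) * t)) *
                (uu i j (x - Real.exp (-(((n + 1 : ℕ) : ℝ) * t)) * x) * y) := by
            rw [diag_ew_mul]
            have h6 : t + (n : ℝ) * t = ((n + 1 : ℕ) : ℝ) * t := by push_cast; ring
            rw [h6]
            have h4 : uu i j (-s) * diagonal (ew w (((n + 1 : ℕ) : ℝ) * t)) =
                diagonal (ew w (((n + 1 : ℕ) : ℝ) * t)) *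
                  uu i j (Real.exp (-(((n + 1 : ℕ) : ℝ) * t)) * -s) := by
              rw [hew, ← mul_assoc, ← Real.exp_add, add_neg_cancel, Real.exp_zero, one_mul]
            rw [← Matrix.mul_assoc, h4, Matrix.mul_assoc, ← Matrix.mul_assoc (uu i j _), uu_mul hij]
            congr 3
            rw [← hxs]
            have h5 : Real.exp (-((n : ℝ) * t)) =
                Real.exp (-(((n + 1 : ℕ) : ℝ) * t)) * Real.exp t := by
              rw [← Real.exp_add]; congr 1; push_cast; ring
            rw [h5]
            ring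
          rw [h3] at h2
          exact h2
      constructor
      · have h2 := hMact (n * t) _ (hNM (h1 n y hy))
        rwa [diag_ew_neg] at h2
      · have h2 := hMact (-(n * t)) _ (hNM (h1' n y hy))
        rwa [diag_ew_neg'] at h2
    have hxM : ∀ y ∈ N, uu i j x * y ∈ M := by
      intro y hy
      have hcont : Continuous (fun r : ℝ => uu i j (x - r * x) * y) := by
        refine Continuous.matrix_mul ?_ continuous_const
        exact (continuous_uu i j).comp (by fun_prop)
      have hlim : Tendsto (fun r : ℝ => uu i j (x - r * x) * y) (𝓝 0) (𝓝 (uu i j x * y)) := by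
        have := hcont.tendsto 0
        simpa using this
      rcases lt_or_gt_of_ne ht0 with htn | htp
      · have h2 : Tendsto (fun n : ℕ => Real.exp ((n : ℝ) * t)) atTop (𝓝 0) :=
          Real.tendsto_exp_atBot.comp (tendsto_natCast_atTop_atTop.atTop_mul_const_of_neg htn)
        exact hM.1.mem_of_tendsto (hlim.comp h2)
          (Eventually.of_forall fun n => (hiter y hy n).1)
      · have h2 : Tendsto (fun n : ℕ => Real.exp (-((n : ℝ) * t))) atTop (𝓝 0) :=
          Real.tendsto_exp_atBot.comp (tendsto_neg_atTop_atBot.comp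
            (tendsto_natCast_atTop_atTop.atTop_mul_const htp))
        exact hM.1.mem_of_tendsto (hlim.comp h2)
          (Eventually.of_forall fun n => (hiter y hy n).2)
    -- apply `no_period` to `u(x) N`
    have hN' : MinS (fun a => a i = a j) {y | uu i j (-x) * y ∈ N} :=
      hN.map (huinv x) (huinv' x) (hcomm (-x))
    refine no_period hd hV hν hMdet hMnu hM hij (neg_ne_zero.2 hx0) hN' ?_ ?_ (ew w t) (ew_pos w t)
      (ew_prod hw0 t) ?_ ⟨uu i j x * h, ?_, ?_⟩
    · intro y hy
      have h2 := hxM _ hy
      rwa [← Matrix.mul_assoc, huinv, Matrix.one_mul] at h2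
    · intro y hy
      exact hNM hy
    · simp only [ew]
      rw [hwi, hwj]
      intro h2
      have := Real.exp_injective h2
      apply ht0
      linarith
    · rw [Set.mem_ofPred_eq, ← Matrix.mul_assoc, huinv', Matrix.one_mul]
      exact hh
    · rw [Set.mem_ofPred_eq, ← Matrix.mul_assoc (diagonal _), hew, Matrix.mul_assoc,
        ← Matrix.mul_assoc (uu i j (-x)), uu_mul hij]
      have h2 : -x + Real.exp t * x = -s := by rw [← hxs]; ring
      rw [h2]
      exact hfwd h hh

end Pool.Agent.TH223.W
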