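import Mathlib
import Pool.Agent.W241.LacSingle
import Pool.Agent.TH223.W.MinS

/-! # Pairs of points differing by an elementary unipotent matrix in a prescribed block -/

open Filter Topology Matrix

namespace Pool.Agent.TH223.W

open H715R2 Pool.Agent.W241.Lac

variable {d : ℕ}

/-- **Step 1.** A pair of points which differ by a unipotent matrix supported in the block where
the weight `θ` increases. -/
theorem exists_upper' (hd : 0 < d) {V ν : ℝ} (hV : 0 < V) (hν : 0 < ν)
    {M : Set (Matrix (Fin d) (Fin d) ℝ)} (hMdet : ∀ h ∈ M, |h.det| = V)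
    (hMnu : ∀ h ∈ M, HasNu h ν) (hM : IsClosed M) (hinv : H715R2.Inv M)
    {h₀ : Matrix (Fin d) (Fin d) ℝ} (hh₀ : h₀ ∈ M)
    (θ : Fin d → ℝ) (hθsum : ∑ i, θ i = 0) (X : ℕ → Fin d → Fin d → ℝ)
    (hXM : ∀ n, (1 + Matrix.of (X n)) * h₀ ∈ M) (hXn : ∀ n : ℕ, ‖X n‖ < 1 / ((n : ℝ) + 1))
    (hθfr : ∃ᶠ n in atTop, ∃ i j, θ j < θ i ∧ X n i j ≠ 0) :
    ∃ (h : Matrix (Fin d) (Fin d) ℝ) (Y : Fin d → Fin d → ℝ), Y ≠ 0 ∧
      (∀ i j, θ i ≤ θ j → Y i j = 0) ∧ Pr M 1 h Y := by
  classical
  have hdR : (0 : ℝ) < d := by exact_mod_cast hd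
  obtain ⟨σ, hσ, hσ2⟩ := extraction_of_frequently_atTop hθfr
  have hXlt : ∀ n, ‖X n‖ < 1 := by
    intro n
    refine (hXn n).trans_le ?_
    rw [div_le_one (by positivity)]
    have : (0 : ℝ) ≤ n := Nat.cast_nonneg n
    linarith
  have htime : ∀ n, ∃ t : ℝ, 0 ≤ t ∧
      ‖(fun k l => if θ l < θ k then Real.exp (t * (θ k - θ l)) * X (σ n) k l else 0 :
        Fin d → Fin d → ℝ)‖ = 1 := by
    intro n
    obtain ⟨i, j, hij, hXij⟩ := hσ2 n
    exact exists_time (hXlt _) hij hXij
  choose t ht0 ht1 using htime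
  obtain ⟨R, hR⟩ := exists_bound hd V ν hV hν
  set a : ℕ → Fin d → ℝ := fun n k => Real.exp (t n * θ k) with ha
  have ha' : ∀ n, (∀ i, 0 < a n i) ∧ ∏ i, a n i = 1 := fun n => exp_pos_prod hθsum (t n)
  have hγ : ∀ n, ∃ γ : Matrix (Fin d) (Fin d) ℤ, IsUnit γ.det ∧
      ∀ i j, |(diagonal (a n) * h₀ * zR γ) i j| ≤ R := by
    intro n
    have h1 : diagonal (a n) * h₀ ∈ M := by
      have := hinv h₀ hh₀ (a n) 1 (ha' n).1 (ha' n).2 (by simp)
      rwa [zR_one, Matrix.mul_one] at this
    exact hR _ (hMdet _ h1) (hMnu _ h1)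
  choose γ hγu hγR using hγ
  set Z : ℕ → Fin d → Fin d → ℝ := fun n => cj (a n) (X (σ n)) with hZ
  have hPn1 : ∀ n, diagonal (a n) * h₀ * zR (γ n) ∈ M := fun n =>
    hinv h₀ hh₀ (a n) (γ n) (ha' n).1 (ha' n).2 (hγu n)
  have hPn2 : ∀ n, (1 + Matrix.of (Z n)) * (diagonal (a n) * h₀ * zR (γ n)) ∈ M := by
    intro n
    have h5 := hinv _ (hXM (σ n)) (a n) (γ n) (ha' n).1 (ha' n).2 (hγu n)
    have h6 : diagonal (a n) * ((1 + Matrix.of (X (σ n))) * h₀) * zR (γ n)
        = (1 + Matrix.of (cj (a n) (X (σ n)))) * (diagonal (a n) * h₀ * zR (γ n)) := by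
      rw [← Matrix.mul_assoc (diagonal (a n)), ← cj_mul (ha' n).1]
      simp only [Matrix.mul_assoc]
    rwa [h6] at h5
  have hZent : ∀ n i j, Z n i j = Real.exp (t n * (θ i - θ j)) * X (σ n) i j := fun n i j =>
    cj_exp θ (t n) (X (σ n)) i j
  have hcontr : ∀ n i j, θ i ≤ θ j → |Z n i j| ≤ ‖X (σ n)‖ := by
    intro n i j hij
    rw [hZent, abs_mul, abs_of_pos (Real.exp_pos _)]
    have h1 : Real.exp (t n * (θ i - θ j)) ≤ 1 := by
      rw [Real.exp_le_one_iff]
      exact mul_nonpos_of_nonneg_of_nonpos (ht0 n) (by linarith)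
    have h2 := abs_le_norm (X (σ n)) i j
    have h3 := abs_nonneg (X (σ n) i j)
    calc Real.exp (t n * (θ i - θ j)) * |X (σ n) i j| ≤ 1 * |X (σ n) i j| :=
          mul_le_mul_of_nonneg_right h1 h3
      _ ≤ ‖X (σ n)‖ := by rw [one_mul]; exact h2
  have hZb : ∀ n i j, |Z n i j| ≤ 1 := by
    intro n i j
    by_cases hij : θ j < θ i
    · have h1 := abs_le_norm (fun k l => if θ l < θ k then Real.exp (t n * (θ k - θ l)) * X (σ n) k l
        else 0 : Fin d → Fin d → ℝ) i j
      rw [ht1 n] at h1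
      simp only [if_pos hij] at h1
      rw [hZent]
      exact h1
    · exact (hcontr n i j (not_lt.1 hij)).trans (hXlt _).le
  -- convergent subsequences
  obtain ⟨h', -, φ, hφ, hlim⟩ := (isCompact_box (d := d) R).tendsto_subseq hγR
  let ZM : ℕ → Matrix (Fin d) (Fin d) ℝ := fun n => Z (φ n)
  have hZM : ∀ n, ZM n ∈ {h : Matrix (Fin d) (Fin d) ℝ | ∀ i j, |h i j| ≤ 1} := fun n => hZb (φ n)
  obtain ⟨Y, -, ψ, hψ, hlimZ⟩ := (isCompact_box (d := d) 1).tendsto_subseq hZM
  have hlim' : Tendsto (fun n => diagonal (a (φ (ψ n))) * h₀ * zR (γ (φ (ψ n)))) atTop (𝓝 h') :=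
    hlim.comp hψ.tendsto_atTop
  have hlimZ' : Tendsto (fun n => (Z (φ (ψ n)) : Matrix (Fin d) (Fin d) ℝ)) atTop (𝓝 Y) := hlimZ
  have hent : ∀ i j, Tendsto (fun n => Z (φ (ψ n)) i j) atTop (𝓝 (Y i j)) := fun i j =>
    ((continuous_apply_apply i j).tendsto Y).comp hlimZ'
  have hidx : Tendsto (fun n => σ (φ (ψ n))) atTop atTop :=
    hσ.tendsto_atTop.comp (hφ.tendsto_atTop.comp hψ.tendsto_atTop)
  have hXto : Tendsto (fun n => ‖X n‖) atTop (𝓝 0) :=
    squeeze_zero (fun n => norm_nonneg _) (fun n => (hXn n).le) tendsto_one_div_add_atTop_nhds_zero_nat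
  have hYdown : ∀ i j, θ i ≤ θ j → Y i j = 0 := by
    intro i j hij
    refine tendsto_nhds_unique (hent i j) ?_
    refine squeeze_zero_norm (fun n => ?_) (hXto.comp hidx)
    rw [Real.norm_eq_abs]
    exact hcontr _ i j hij
  refine ⟨h', Y, ?_, hYdown, ?_, fun i => hYdown i i le_rfl, ?_⟩
  · -- the limit is not zero
    intro hY0
    have hcont : Continuous (fun W : Fin d → Fin d → ℝ =>
        ‖(fun k l => if θ l < θ k then W k l else 0 : Fin d → Fin d → ℝ)‖) := by
      refine continuous_norm.comp ?_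
      refine continuous_pi fun k => continuous_pi fun l => ?_
      by_cases hkl : θ l < θ k
      · simp only [if_pos hkl]
        fun_prop
      · simp only [if_neg hkl]
        exact continuous_const
    have h1 : Tendsto (fun n => ‖(fun k l => if θ l < θ k then Z (φ (ψ n)) k l else 0 :
        Fin d → Fin d → ℝ)‖) atTop (𝓝 ‖(fun k l => if θ l < θ k then Y k l else 0 :
        Fin d → Fin d → ℝ)‖) := (hcont.tendsto Y).comp hlimZ'
    have h2 : (fun n => ‖(fun k l => if θ l < θ k then Z (φ (ψ n)) k l else 0 :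
        Fin d → Fin d → ℝ)‖) = fun _ => (1 : ℝ) := by
      funext n
      rw [← ht1 (φ (ψ n))]
      congr 1
      funext k l
      by_cases hkl : θ l < θ k
      · simp only [if_pos hkl, hZent]
      · simp only [if_neg hkl]
    rw [h2] at h1
    have h3 := tendsto_nhds_unique tendsto_const_nhds h1
    have h4 : (fun k l => if θ l < θ k then Y k l else 0 : Fin d → Fin d → ℝ) = 0 := by
      funext k l
      have : Y k l = 0 := congrFun (congrFun hY0 k) l
      simp [this]
    rw [h4, norm_zero] at h3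
    exact one_ne_zero h3
  · exact hM.mem_of_tendsto hlim' (Eventually.of_forall fun n => hPn1 _)
  · refine hM.mem_of_tendsto (tendsto_unip (Y := Y) hlimZ' hlim' tendsto_const_nhds)
      (Eventually.of_forall fun n => ?_)
    rw [one_smul]
    exact hPn2 _

/-- **Step 2.** Two points of `M` which differ by an elementary unipotent matrix at a position
where `X` is not zero. -/
theorem exists_single' (hd : 0 < d) {V ν : ℝ} (hV : 0 < V) (hν : 0 < ν)
    {M : Set (Matrix (Fin d) (Fin d) ℝ)} (hMdet : ∀ h ∈ M, |h.det| = V)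
    (hMnu : ∀ h ∈ M, HasNu h ν) (hM : IsClosed M) (hinv : H715R2.Inv M)
    (θ : Fin d → ℝ) :
    ∀ (N : ℕ) (h : Matrix (Fin d) (Fin d) ℝ) (X : Fin d → Fin d → ℝ), X ≠ 0 →
      (∀ i j, θ i ≤ θ j → X i j = 0) → Pr M 1 h X →
      (Finset.univ.filter (fun p : Fin d × Fin d => X p.1 p.2 ≠ 0)).card ≤ N →
      ∃ (h' : Matrix (Fin d) (Fin d) ℝ) (i j : Fin d) (s : ℝ), i ≠ j ∧ s ≠ 0 ∧ X i j ≠ 0 ∧
        Pr M 1 h' (fun k l => if k = i ∧ l = j then s else 0) := by
  classical
  have hdR : (0 : ℝ) < d := by exact_mod_cast hd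
  intro N
  induction N with
  | zero =>
    intro h X hX0 _ _ hcard
    exfalso
    rw [Nat.le_zero, Finset.card_eq_zero, Finset.filter_eq_empty_iff] at hcard
    apply hX0
    funext i j
    have := hcard (Finset.mem_univ (i, j))
    simpa using this
  | succ N ih =>
    intro h X hX0 hXup hP hcard
    set S := Finset.univ.filter (fun p : Fin d × Fin d => X p.1 p.2 ≠ 0) with hS
    have hmemS : ∀ p, p ∈ S ↔ X p.1 p.2 ≠ 0 := fun p => by simp [hS]
    have hSne : S.Nonempty := by
      by_contra hcon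
      rw [Finset.not_nonempty_iff_eq_empty, hS, Finset.filter_eq_empty_iff] at hcon
      apply hX0
      funext i j
      have := hcon (Finset.mem_univ (i, j))
      simpa using this
    have hθS : ∀ p ∈ S, 0 < θ p.1 - θ p.2 := by
      intro p hp
      rw [hmemS] at hp
      by_contra hcon
      exact hp (hXup _ _ (by linarith))
    have hneS : ∀ p ∈ S, p.1 ≠ p.2 := by
      intro p hp heq
      have := hθS p hp
      rw [heq, sub_self] at this
      exact lt_irrefl _ this
    by_cases h1 : S.card ≤ 1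
    · obtain ⟨p, hp⟩ := Finset.card_eq_one.1 (le_antisymm h1 (Finset.card_pos.2 hSne))
      have hpS : p ∈ S := by rw [hp]; exact Finset.mem_singleton_self p
      refine ⟨h, p.1, p.2, X p.1 p.2, hneS p hpS, (hmemS p).1 hpS, (hmemS p).1 hpS, ?_⟩
      have hXe : X = fun k l => if k = p.1 ∧ l = p.2 then X p.1 p.2 else 0 := by
        funext k l
        by_cases hkl : k = p.1 ∧ l = p.2
        · rw [if_pos hkl, hkl.1, hkl.2]
        · rw [if_neg hkl]
          by_contra hne
          have h2 : (k, l) ∈ S := (hmemS (k, l)).2 hne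
          rw [hp, Finset.mem_singleton] at h2
          exact hkl ⟨congrArg Prod.fst h2, congrArg Prod.snd h2⟩
      rw [← hXe]
      exact hP
    · obtain ⟨α, hα, β, hβ, hαβ⟩ := Finset.one_lt_card.1 (not_le.1 h1)
      -- a functional separating the two roots
      obtain ⟨f, hfα, hfβ⟩ : ∃ f : Fin d → ℝ, 0 < f α.1 - f α.2 ∧ f β.1 - f β.2 ≤ 0 := by
        have hαne := hneS α hα
        have hβne := hneS β hβ
        by_cases h2 : α.1 = β.1
        · have h3 : β.2 ≠ α.2 := fun h3 => hαβ (Prod.ext h2 h3.symm)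
          have h4 : β.1 ≠ α.2 := by rw [← h2]; exact hαne
          refine ⟨fun k => if k = α.2 then -1 else 0, ?_, ?_⟩
          · simp [hαne]
          · simp [h3, h4]
        · have h3 : β.1 ≠ α.1 := fun h4 => h2 h4.symm
          refine ⟨fun k => if k = α.1 then 1 else 0, ?_, ?_⟩
          · simp [hαne.symm]
          · simp only [if_neg h3]
            split_ifs <;> norm_num
      obtain ⟨p, hpS, hpmax⟩ := S.exists_max_image (fun p => (f p.1 - f p.2) / (θ p.1 - θ p.2))
        ⟨α, hα⟩
      set c := (f p.1 - f p.2) / (θ p.1 - θ p.2) with hc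
      have hc0 : 0 < c := (div_pos hfα (hθS α hα)).trans_le (hpmax α hα)
      set ψ : Fin d → ℝ := fun k => f k - c * θ k - (∑ l, (f l - c * θ l)) / d with hψ
      have hψsum : ∑ k, ψ k = 0 := by
        simp only [hψ]
        rw [Finset.sum_sub_distrib, Finset.sum_const, Finset.card_univ, Fintype.card_fin,
          nsmul_eq_mul, mul_div_cancel₀ _ hdR.ne', sub_self]
      have hψd : ∀ k l, ψ k - ψ l = (f k - f l) - c * (θ k - θ l) := fun k l => by
        simp only [hψ]; ring
      have hψS : ∀ q ∈ S, ψ q.1 - ψ q.2 ≤ 0 := by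
        intro q hq
        rw [hψd]
        have h2 := hpmax q hq
        rw [div_le_iff₀ (hθS q hq)] at h2
        linarith
      have hψp : ψ p.1 - ψ p.2 = 0 := by
        rw [hψd, hc, div_mul_cancel₀ _ (hθS p hpS).ne', sub_self]
      have hψβ : ψ β.1 - ψ β.2 < 0 := by
        rw [hψd]
        have := mul_pos hc0 (hθS β hβ)
        linarith
      obtain ⟨R, hR⟩ := exists_bound hd V ν hV hν
      set a : ℕ → Fin d → ℝ := fun n k => Real.exp ((n : ℝ) * ψ k) with ha
      have ha' : ∀ n, (∀ i, 0 < a n i) ∧ ∏ i, a n i = 1 := fun n => exp_pos_prod hψsum n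
      have hγ : ∀ n, ∃ γ : Matrix (Fin d) (Fin d) ℤ, IsUnit γ.det ∧
          ∀ i j, |(diagonal (a n) * h * zR γ) i j| ≤ R := by
        intro n
        have h1 : diagonal (a n) * h ∈ M := by
          have := hinv h hP.1 (a n) 1 (ha' n).1 (ha' n).2 (by simp)
          rwa [zR_one, Matrix.mul_one] at this
        exact hR _ (hMdet _ h1) (hMnu _ h1)
      choose γ hγu hγR using hγ
      obtain ⟨h', -, φ, hφ, hlim⟩ := (isCompact_box (d := d) R).tendsto_subseq hγR
      have hPn : ∀ n, Pr M 1 (diagonal (a n) * h * zR (γ n)) (cj (a n) X) := fun n =>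
        hP.act hinv (ha' n).1 (ha' n).2 (hγu n)
      set Y : Fin d → Fin d → ℝ := fun k l => if ψ k - ψ l = 0 then X k l else 0 with hY
      have hlimX : Tendsto (fun n => cj (a n) X) atTop (𝓝 Y) := by
        rw [tendsto_pi_nhds]
        intro k
        rw [tendsto_pi_nhds]
        intro l
        have h2 : (fun n => cj (a n) X k l) = fun n : ℕ => Real.exp ((n : ℝ) * (ψ k - ψ l)) * X k l :=
          funext fun n => cj_exp ψ n X k l
        rw [h2]
        by_cases h3 : ψ k - ψ l = 0
        · simp only [hY, if_pos h3, h3, mul_zero, Real.exp_zero, one_mul]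
          exact tendsto_const_nhds
        · simp only [hY, if_neg h3]
          by_cases h4 : X k l = 0
          · simp only [h4, mul_zero]
            exact tendsto_const_nhds
          · have h5 : ψ k - ψ l < 0 :=
              lt_of_le_of_ne (hψS (k, l) ((hmemS (k, l)).2 h4)) h3
            have h6 : Tendsto (fun n : ℕ => Real.exp ((n : ℝ) * (ψ k - ψ l))) atTop (𝓝 0) :=
              Real.tendsto_exp_atBot.comp
                (tendsto_natCast_atTop_atTop.atTop_mul_const_of_neg h5)
            have h7 := h6.mul_const (X k l)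
            rwa [zero_mul] at h7
      have hlimX' : Tendsto (fun n => cj (a (φ n)) X) atTop (𝓝 Y) := hlimX.comp hφ.tendsto_atTop
      have hP' : Pr M 1 h' Y := by
        refine ⟨hM.mem_of_tendsto hlim (Eventually.of_forall fun n => (hPn _).1), fun i => ?_, ?_⟩
        · simp only [hY, sub_self, if_true]
          exact hP.2.1 i
        · exact hM.mem_of_tendsto (tendsto_unip hlimX' hlim tendsto_const_nhds)
            (Eventually.of_forall fun n => (hPn _).2.2)
      have key : ∃ (h' : Matrix (Fin d) (Fin d) ℝ) (i j : Fin d) (s : ℝ), i ≠ j ∧ s ≠ 0 ∧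
          Y i j ≠ 0 ∧ Pr M 1 h' (fun k l => if k = i ∧ l = j then s else 0) := by
        refine ih h' Y ?_ ?_ hP' ?_
        · intro hY0
          have h2 : Y p.1 p.2 = 0 := congrFun (congrFun hY0 p.1) p.2
          simp only [hY, if_pos hψp] at h2
          exact (hmemS p).1 hpS h2
        · intro i j hij
          simp only [hY]
          split_ifs
          · exact hXup i j hij
          · rfl
        · have h2 : (Finset.univ.filter (fun q : Fin d × Fin d => Y q.1 q.2 ≠ 0)) ⊆ S.erase β := by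
            intro q hq
            rw [Finset.mem_filter] at hq
            have h3 := hq.2
            simp only [hY] at h3
            by_cases h4 : ψ q.1 - ψ q.2 = 0
            · rw [if_pos h4] at h3
              refine Finset.mem_erase.2 ⟨fun h5 => ?_, (hmemS q).2 h3⟩
              rw [h5] at h4
              exact hψβ.ne h4
            · rw [if_neg h4] at h3
              exact absurd rfl h3
          refine (Finset.card_le_card h2).trans ?_
          rw [Finset.card_erase_of_mem hβ]
          omega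
      obtain ⟨h'', i, j, s, hij, hs, hYij, hPr⟩ := key
      refine ⟨h'', i, j, s, hij, hs, fun h0 => hYij ?_, hPr⟩
      simp only [hY]
      split_ifs
      · exact h0
      · rfl

end Pool.Agent.TH223.W
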