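import Mathlib
import Pool.Agent.TH223.W.MinS

/-! # Irreducibility of the characteristic polynomial from two widely separated groups of
eigenvalues -/

open Filter Topology Matrix Polynomial

namespace Pool.Agent.TH223.W

open H715R2

variable {d : ℕ}

lemma multiset_log (t k D : ℝ) (s : Multiset ℂ)
    (hs : ∀ z ∈ s, z ≠ 0 ∧ ∃ c : ℤ, |Real.log ‖z‖ - t * (k - D * c)| ≤ Real.log 2) :
    ∃ m : ℤ, |Real.log ‖s.prod‖ - t * (k * s.card - D * m)| ≤ s.card * Real.log 2 := by
  induction s using Multiset.induction_on with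
  | empty => exact ⟨0, by simp⟩
  | cons z s ih =>
    obtain ⟨m, hm⟩ := ih fun x hx => hs x (Multiset.mem_cons_of_mem hx)
    obtain ⟨hz, c, hc⟩ := hs z (Multiset.mem_cons_self z s)
    have hprod : s.prod ≠ 0 := by
      intro h0
      exact (hs 0 (Multiset.mem_cons_of_mem (Multiset.prod_eq_zero_iff.1 h0))).1 rfl
    refine ⟨m + c, ?_⟩
    rw [Multiset.prod_cons, norm_mul, Real.log_mul (norm_ne_zero_iff.2 hz)
      (norm_ne_zero_iff.2 hprod), Multiset.card_cons]
    have h1 : Real.log ‖z‖ + Real.log ‖s.prod‖ - t * (k * ((s.card + 1 : ℕ) : ℝ) -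
        D * ((m + c : ℤ) : ℝ)) = (Real.log ‖z‖ - t * (k - D * c)) +
        (Real.log ‖s.prod‖ - t * (k * s.card - D * m)) := by
      push_cast; ring
    rw [h1]
    refine (abs_add_le _ _).trans ?_
    push_cast
    linarith

theorem irr_charpoly (γ : Matrix (Fin d) (Fin d) ℤ) (hγ : IsUnit γ.det) (hd : 0 < d) (k : ℕ)
    (hk : Nat.Coprime k d) (t : ℝ) (ht : d * Real.log 2 < t)
    (hroot : ∀ z : ℂ, (γ.map (Int.cast : ℤ → ℂ)).charpoly.IsRoot z →
      ∃ c : ℤ, |Real.log ‖z‖ - t * (k - d * c)| ≤ Real.log 2) : Irreducible γ.charpoly := by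
  classical
  have : Nonempty (Fin d) := ⟨⟨0, hd⟩⟩
  have hmon := γ.charpoly_monic
  have hdeg : γ.charpoly.natDegree = d := by
    rw [Matrix.charpoly_natDegree_eq_dim, Fintype.card_fin]
  have hmap : (γ.map (Int.cast : ℤ → ℂ)).charpoly = γ.charpoly.map (Int.castRingHom ℂ) := by
    have := Matrix.charpoly_map γ (Int.castRingHom ℂ)
    exact this
  rw [hmon.irreducible_iff_natDegree']
  refine ⟨?_, fun f g hf hg hfg hmem => ?_⟩
  · intro h1
    rw [h1, natDegree_one] at hdeg
    omega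
  rw [hdeg, Finset.mem_Ioc] at hmem
  set gC := g.map (Int.castRingHom ℂ) with hgC
  have hgCm : gC.Monic := hg.map _
  have hgCd : gC.natDegree = g.natDegree := hg.natDegree_map _
  have hspl : gC.Splits := IsAlgClosed.splits gC
  have hcard : gC.roots.card = g.natDegree := by
    rw [← hspl.natDegree_eq_card_roots, hgCd]
  have hunit : IsUnit (g.coeff 0) := by
    have h1 : f.coeff 0 * g.coeff 0 = γ.charpoly.coeff 0 := by rw [← hfg, mul_coeff_zero]
    have h2 : IsUnit (γ.charpoly.coeff 0) := by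
      have h3 := Matrix.det_eq_sign_charpoly_coeff γ
      rw [h3] at hγ
      exact isUnit_of_mul_isUnit_right hγ
    rw [← h1] at h2
    exact isUnit_of_mul_isUnit_right h2
  have hnorm : ‖gC.roots.prod‖ = 1 := by
    have h1 := hspl.coeff_zero_eq_prod_roots_of_monic hgCm
    have h2 : ‖gC.coeff 0‖ = 1 := by
      rw [hgC, coeff_map]
      rcases Int.isUnit_iff.1 hunit with h3 | h3 <;> rw [h3] <;> simp
    rw [h1, norm_mul, norm_pow, norm_neg, norm_one, one_pow, one_mul] at h2
    exact h2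
  obtain ⟨m, hm⟩ := multiset_log t k d gC.roots fun z hz => by
    have hz1 : gC.IsRoot z := isRoot_of_mem_roots hz
    have hz2 : (γ.map (Int.cast : ℤ → ℂ)).charpoly.IsRoot z := by
      rw [hmap, ← hfg, Polynomial.map_mul]
      exact hz1.dvd (dvd_mul_left _ _)
    refine ⟨?_, hroot z hz2⟩
    rintro rfl
    have h1 : gC.coeff 0 = 0 := by
      rw [coeff_zero_eq_eval_zero]; exact hz1
    rw [hgC, coeff_map] at h1
    rcases Int.isUnit_iff.1 hunit with h3 | h3 <;> rw [h3] at h1 <;> simp at h1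
  rw [hnorm, Real.log_one, zero_sub, abs_neg, hcard] at hm
  have hlog2 : 0 < Real.log 2 := Real.log_pos (by norm_num)
  have hdR : (0 : ℝ) < d := by exact_mod_cast hd
  have ht0 : 0 < t := (mul_pos hdR hlog2).trans ht
  have hrd : (g.natDegree : ℝ) ≤ d := by
    exact_mod_cast hmem.2.trans (Nat.div_le_self _ _)
  have h1 : |(k : ℝ) * g.natDegree - d * m| < 1 := by
    rw [abs_mul, abs_of_pos ht0] at hm
    have h2 : t * |(k : ℝ) * g.natDegree - d * m| < t * 1 := by
      refine hm.trans_lt ?_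
      rw [mul_one]
      exact (mul_le_mul_of_nonneg_right hrd hlog2.le).trans_lt ht
    exact lt_of_mul_lt_mul_left h2 ht0.le
  have h2 : (k : ℤ) * g.natDegree - d * m = 0 := by
    have h3 : |((k : ℤ) * g.natDegree - d * m : ℤ)| < 1 := by
      have : ((|(k : ℤ) * g.natDegree - d * m| : ℤ) : ℝ) < 1 := by
        push_cast
        exact h1
      exact_mod_cast this
    exact Int.abs_lt_one_iff.1 h3
  have h3 : (d : ℤ) ∣ ((k * g.natDegree : ℕ) : ℤ) := ⟨m, by push_cast; linarith⟩
  have h4 : d ∣ k * g.natDegree := by exact_mod_cast h3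
  have h5 : d ∣ g.natDegree := hk.symm.dvd_of_dvd_mul_left h4
  have h6 := Nat.le_of_dvd hmem.1 h5
  have h7 := hmem.2.trans (Nat.div_lt_self hd (by norm_num)).le
  have h8 := Nat.div_lt_self hd (by norm_num : 1 < 2)
  omega

/-- the eigenvalues of a matrix conjugate to the product of a diagonal matrix and a matrix close to
the identity -/
theorem roots_near (b : Fin d → ℝ) (hb : ∀ i, 0 < b i) {h : Matrix (Fin d) (Fin d) ℝ}
    (hh : IsUnit h.det) (γ : Matrix (Fin d) (Fin d) ℤ)
    (E : Matrix (Fin d) (Fin d) ℝ) (hE : E * h = diagonal b * h * zR γ)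
    (hsmall : ∀ i, ∑ j, |(E - 1) i j| ≤ 1 / 2) (z : ℂ)
    (hz : (γ.map (Int.cast : ℤ → ℂ)).charpoly.IsRoot z) :
    ∃ i, |Real.log ‖z‖ + Real.log (b i)| ≤ Real.log 2 := by
  classical
  set φ : ℝ →+* ℂ := algebraMap ℝ ℂ with hφ
  set hC : Matrix (Fin d) (Fin d) ℂ := h.map φ with hhC
  set γC : Matrix (Fin d) (Fin d) ℂ := γ.map (Int.cast : ℤ → ℂ) with hγC
  have hzR : (zR γ).map φ = γC := by
    ext i j
    simp [zR, hγC, hφ]
  have hEC : E.map φ * hC = (diagonal fun i => (b i : ℂ)) * hC * γC := by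
    have h1 := congrArg (fun X : Matrix (Fin d) (Fin d) ℝ => X.map φ) hE
    simp only [Matrix.map_mul, hzR] at h1
    rw [h1, ← hhC]
    congr 2
    ext i j
    by_cases hij : i = j
    · subst hij; simp [hφ]
    · simp [Matrix.diagonal_apply_ne _ hij]
  have hdet : (z • (1 : Matrix (Fin d) (Fin d) ℂ) - γC).det = 0 := by
    have h1 : (γC.charpoly).eval z = 0 := hz
    rw [Matrix.eval_charpoly] at h1
    rw [← h1]
    congr 1
    ext i j
    simp [Matrix.scalar_apply, Matrix.one_apply, Matrix.diagonal_apply]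
  have hdet2 : ((z • (diagonal fun i => (b i : ℂ))) - E.map φ).det = 0 := by
    have h1 : ((z • (diagonal fun i => (b i : ℂ))) - E.map φ) * hC =
        (diagonal fun i => (b i : ℂ)) * hC * (z • (1 : Matrix (Fin d) (Fin d) ℂ) - γC) := by
      rw [Matrix.sub_mul, Matrix.mul_sub, hEC, Matrix.mul_smul, Matrix.mul_one, Matrix.smul_mul]
    have h2 := congrArg Matrix.det h1
    rw [det_mul, det_mul _ (z • (1 : Matrix (Fin d) (Fin d) ℂ) - γC), hdet, mul_zero] at h2
    rcases mul_eq_zero.1 h2 with h3 | h3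
    · exact h3
    · exfalso
      have h4 : hC.det = φ h.det := by
        rw [hhC]
        exact (RingHom.map_det φ h).symm
      rw [h4] at h3
      exact hh.ne_zero ((map_eq_zero φ).1 h3)
  obtain ⟨i, hi⟩ : ∃ i, ‖((z • (diagonal fun i => (b i : ℂ))) - E.map φ) i i‖ ≤
      ∑ j ∈ Finset.univ.erase i, ‖((z • (diagonal fun i => (b i : ℂ))) - E.map φ) i j‖ := by
    by_contra hcon
    push Not at hcon
    exact det_ne_zero_of_sum_row_lt_diag hcon hdet2
  refine ⟨i, ?_⟩
  have h1 : ((z • (diagonal fun i => (b i : ℂ))) - E.map φ) i i = (z * b i - 1) - φ ((E - 1) i i) := by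
    simp [hφ]
  have h2 : ∀ j ∈ Finset.univ.erase i, ‖((z • (diagonal fun i => (b i : ℂ))) - E.map φ) i j‖ =
      |(E - 1) i j| := by
    intro j hj
    have hij : i ≠ j := (Finset.ne_of_mem_erase hj).symm
    simp [hφ, Matrix.diagonal_apply_ne _ hij, Matrix.one_apply_ne hij]
  rw [Finset.sum_congr rfl h2, h1] at hi
  have h3 : ‖z * b i - 1‖ ≤ 1 / 2 := by
    have h4 : z * b i - 1 = ((z * b i - 1) - φ ((E - 1) i i)) + φ ((E - 1) i i) := by ring
    rw [h4]
    refine (norm_add_le _ _).trans ?_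
    have h5 : ‖φ ((E - 1) i i)‖ = |(E - 1) i i| := by
      rw [← Real.norm_eq_abs]
      exact norm_algebraMap' ℂ _
    rw [h5]
    have h6 := hsmall i
    rw [← Finset.add_sum_erase Finset.univ _ (Finset.mem_univ i)] at h6
    linarith
  have hnb : ‖z * b i‖ = ‖z‖ * b i := by
    rw [norm_mul, Complex.norm_real, Real.norm_eq_abs, abs_of_pos (hb i)]
  have hlow : 1 / 2 ≤ ‖z‖ * b i := by
    rw [← hnb]
    have h4 := norm_sub_norm_le (1 : ℂ) (1 - z * b i)
    have h5 : (1 : ℂ) - (1 - z * b i) = z * b i := by ring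
    rw [h5, norm_one, norm_sub_rev] at h4
    linarith
  have hup : ‖z‖ * b i ≤ 2 := by
    rw [← hnb]
    have h4 : z * b i = (z * b i - 1) + 1 := by ring
    rw [h4]
    refine (norm_add_le _ _).trans ?_
    rw [norm_one]
    linarith
  have hz0 : 0 < ‖z‖ := by
    by_contra hcon
    have h4 : ‖z‖ = 0 := le_antisymm (not_lt.1 hcon) (norm_nonneg _)
    rw [h4, zero_mul] at hlow
    norm_num at hlow
  rw [← Real.log_mul hz0.ne' (hb i).ne', abs_le]
  constructor
  · rw [← Real.log_inv]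
    exact Real.log_le_log (by norm_num) (by rw [← one_div]; exact hlow)
  · exact Real.log_le_log (by positivity) hup

end Pool.Agent.TH223.W
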