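import Mathlib
import Pool.Agent.TH223.W.Cross
import Pool.Agent.TH223.W.Affine
import Pool.Agent.TH223.W.Irred
import Pool.Agent.TH223.E.Build

/-! # Wall-minimal sets in the orbit closure of a counterexample -/

open Filter Topology Matrix Polynomial

namespace Pool.Agent.TH223.W

open H715R2 Pool.Agent.W241.Lac

variable {d : ℕ}

/-- the weight attached to a set of indices -/
noncomputable def wI (I : Finset (Fin d)) : Fin d → ℝ :=
  fun k => (if k ∈ I then (d : ℝ) else 0) - I.card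

lemma wI_sum (I : Finset (Fin d)) : ∑ k, wI I k = 0 := by
  classical
  simp only [wI]
  rw [Finset.sum_sub_distrib, Finset.sum_const, Finset.card_univ, Fintype.card_fin,
    ← Finset.sum_filter]
  simp only [Finset.filter_mem_eq_inter, Finset.univ_inter, Finset.sum_const, nsmul_eq_mul]
  ring

/-- **No block diagonal returns.** -/
theorem no_block (hd : 3 ≤ d) {g : Matrix (Fin d) (Fin d) ℝ} (hg : g.det ≠ 0) {ν : ℝ}
    (hν : 0 < ν) (hnu : HasNu g ν) (hint : ¬ PropInt g) {h : Matrix (Fin d) (Fin d) ℝ}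
    (hh : h ∈ closure (Orb g)) (I : Finset (Fin d)) (hI : Nat.Coprime I.card d)
    (t : ℝ) (ht : d * Real.log 2 < t) (γ : Matrix (Fin d) (Fin d) ℤ) (hγ : IsUnit γ.det)
    (E : Matrix (Fin d) (Fin d) ℝ) (hE : E * h = diagonal (ew (wI I) t) * h * zR γ)
    (hsmall : ∀ i, ∑ j, |(E - 1) i j| ≤ 1 / 2)
    (hblock : ∀ i ∈ I, ∀ j ∉ I, E i j = 0) : False := by
  classical
  have hdet : h.det ≠ 0 := by
    intro h0
    have h1 := abs_det_closure hh
    rw [h0, abs_zero] at h1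
    exact hg (abs_eq_zero.1 h1.symm)
  have hu : IsUnit h.det := isUnit_iff_ne_zero.2 hdet
  have hirr : Irreducible γ.charpoly := by
    refine irr_charpoly γ hγ (by omega) I.card hI t ht fun z hz => ?_
    obtain ⟨i, hi⟩ := roots_near (ew (wI I) t) (ew_pos _ t) hu γ E hE hsmall z hz
    refine ⟨if i ∈ I then 1 else 0, ?_⟩
    have h1 : Real.log (ew (wI I) t i) = t * wI I i := by
      simp only [ew]
      rw [Real.log_exp]
    rw [h1] at hi
    have h2 : Real.log ‖z‖ - t * ((I.card : ℝ) - d * ((if i ∈ I then 1 else 0 : ℤ) : ℝ)) =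
        Real.log ‖z‖ + t * wI I i := by
      simp only [wI]
      split_ifs <;> push_cast <;> ring
    rw [h2]
    exact hi
  set θ : Matrix (Fin d) (Fin d) ℚ := γ.map (Int.cast : ℤ → ℚ) with hθ
  have hθirr : Irreducible θ.charpoly := by
    have h1 : θ.charpoly = γ.charpoly.map (algebraMap ℤ ℚ) :=
      Matrix.charpoly_map γ (Int.castRingHom ℚ)
    rw [h1]
    exact (Monic.irreducible_iff_irreducible_map_fraction_map γ.charpoly_monic).1 hirr
  have hIne : I.Nonempty := by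
    rw [Finset.nonempty_iff_ne_empty]
    rintro rfl
    rw [Finset.card_empty, Nat.coprime_zero_left] at hI
    omega
  have hIuniv : I ≠ Finset.univ := by
    rintro rfl
    rw [Finset.card_univ, Fintype.card_fin, Nat.coprime_self] at hI
    omega
  have hinv : ∀ i ∈ I, ∃ c : Fin d → ℝ, ∀ k, ∑ j, h i j * (θ j k : ℝ) =
      ∑ j ∈ I, c j * h j k := by
    intro i hi
    refine ⟨fun j => (ew (wI I) t i)⁻¹ * E i j, fun k => ?_⟩
    have h1 : (E * h) i k = ew (wI I) t i * ∑ j, h i j * (θ j k : ℝ) := by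
      rw [hE, Matrix.mul_assoc, diagonal_mul, Matrix.mul_apply]
      congr 1
    have h2 : (E * h) i k = ∑ j ∈ I, E i j * h j k := by
      rw [Matrix.mul_apply]
      symm
      refine Finset.sum_subset (Finset.subset_univ I) fun j _ hj => ?_
      rw [hblock i hi j hj, zero_mul]
    have h3 : ∑ j, h i j * (θ j k : ℝ) = (ew (wI I) t i)⁻¹ * (E * h) i k := by
      rw [h1, ← mul_assoc, inv_mul_cancel₀ (ew_pos (wI I) t i).ne', one_mul]
    rw [h3, h2, Finset.mul_sum]
    exact Finset.sum_congr rfl fun j _ => (mul_assoc _ _ _).symm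
  obtain ⟨K, _, _, D, hD⟩ := Pool.Agent.TH223.E.build hd h hdet I hIne hIuniv θ hθirr hinv
    (Or.inl hI)
  exact hint (D.main hd hg hν hnu (by rw [hD]; exact hh))

/-- **Structure of the orbit closure of a counterexample.** -/
theorem wall_structure (hd : 3 ≤ d) {g : Matrix (Fin d) (Fin d) ℝ} (hg : g.det ≠ 0) {ν : ℝ}
    (hν : 0 < ν) (hnu : HasNu g ν) (hint : ¬ PropInt g)
    {Y : Set (Matrix (Fin d) (Fin d) ℝ)} (hY : Y ⊆ closure (Orb g)) (hYc : IsClosed Y)
    (hYn : Y.Nonempty) (hYi : InvS (fun _ => True) Y)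
    (I : Finset (Fin d)) (hI : Nat.Coprime I.card d) :
    ∃ i ∈ I, ∃ j ∉ I, ∃ s : ℝ, s ≠ 0 ∧ ∃ N ⊆ Y,
      MinS (fun a => a i = a j) N ∧ (∀ h ∈ N, uu i j s * h ∈ Y) ∧
      (∀ a : Fin d → ℝ, (∀ k, 0 < a k) → ∏ k, a k = 1 → a i ≠ a j →
        ∀ h ∈ N, diagonal a * h ∉ N) ∧
      (∀ a : Fin d → ℝ, (∀ k, 0 < a k) → ∏ k, a k = 1 →
        ∀ h ∈ N, ∀ h' ∈ N, uu i j s * h ≠ diagonal a * h') := by
  classical
  have hd0 : 0 < d := by omega
  have hdR : (0 : ℝ) < d := by exact_mod_cast hd0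
  have hV : 0 < |g.det| := abs_pos.2 hg
  obtain ⟨M, hMY, hMmin⟩ := exists_minS hd0 hV hν (fun _ => True) trivial
    (fun h hh => abs_det_closure (hY hh)) (fun h hh => hasNu_closure hnu (hY hh)) hYc hYn hYi
  have hMdet : ∀ h ∈ M, |h.det| = |g.det| := fun h hh => abs_det_closure (hY (hMY hh))
  have hMnu : ∀ h ∈ M, HasNu h ν := fun h hh => hasNu_closure hnu (hY (hMY hh))
  have hMinv : H715R2.Inv M := fun h hh a γ ha0 ha1 hγ => hMmin.2.2.1 h hh a γ ha0 ha1 trivial hγ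
  -- it is enough to find one crossing pair
  suffices hpair : ∃ (h : Matrix (Fin d) (Fin d) ℝ) (i j : Fin d) (s : ℝ), i ≠ j ∧
      (i ∈ I ∧ j ∉ I) ∧ s ≠ 0 ∧ h ∈ M ∧ uu i j s * h ∈ M by
    obtain ⟨h, i, j, s, hij, hcr, hs, hhM, hhs⟩ := hpair
    have hcont : Continuous (fun x : Matrix (Fin d) (Fin d) ℝ => uu i j s * x) :=
      continuous_const.matrix_mul continuous_id
    obtain ⟨N, hNS, hN⟩ := exists_minS (Y₀ := {x | x ∈ M ∧ uu i j s * x ∈ M}) hd0 hV hν
      (fun a : Fin d → ℝ => a i = a j) rfl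
      (fun x hx => hMdet x hx.1) (fun x hx => hMnu x hx.1)
      (hMmin.1.inter (hMmin.1.preimage hcont)) ⟨h, hhM, hhs⟩ (by
        rintro x ⟨hx1, hx2⟩ a γ ha0 ha1 hPa hγ
        refine ⟨hMinv x hx1 a γ ha0 ha1 hγ, ?_⟩
        have h1 := hMinv _ hx2 a γ ha0 ha1 hγ
        have h2 : diagonal a * uu i j s = uu i j s * diagonal a := by
          refine diag_uu i j s s ?_
          rw [show a i = a j from hPa, mul_comm]
        rw [← Matrix.mul_assoc, h2] at h1
        rw [← Matrix.mul_assoc, ← Matrix.mul_assoc]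
        exact h1)
    refine ⟨i, hcr.1, j, hcr.2, s, hs, N, fun x hx => hMY (hNS hx).1, hN, fun x hx => hMY (hNS hx).2,
      fun a ha0 ha1 haij x hx hax => ?_, fun a ha0 ha1 x hx x' hx' he => ?_⟩
    · exact no_period hd0 hV hν hMdet hMnu hMmin hij hs hN (fun x hx => (hNS hx).1)
        (fun x hx => (hNS hx).2) a ha0 ha1 haij ⟨x, hx, hax⟩
    · exact no_affine hd0 hV hν hMdet hMnu hMmin hij hs hN (fun x hx => (hNS hx).1)
        a ha0 ha1 ⟨x, hx, x', hx', he⟩
  -- recurrence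
  obtain ⟨h, hhM, hrec⟩ := exists_recurrent hd0 hV hν hMdet hMnu hMmin.1 hMmin.2.1 hMinv (wI I)
    (wI_sum I)
  have hdet : h.det ≠ 0 := by
    intro h0
    have := hMdet h hhM
    rw [h0, abs_zero] at this
    exact hV.ne this
  have hu : IsUnit h.det := isUnit_iff_ne_zero.2 hdet
  have hseq : ∀ n : ℕ, ∃ (t : ℝ) (γ : Matrix (Fin d) (Fin d) ℤ) (X : Fin d → Fin d → ℝ),
      (n : ℝ) ≤ t ∧ IsUnit γ.det ∧ ‖X‖ < 1 / ((n : ℝ) + 1) ∧
      (1 + Matrix.of X) * h = diagonal (ew (wI I) t) * h * zR γ := by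
    intro n
    have hcont : Continuous (fun x : Matrix (Fin d) (Fin d) ℝ =>
        ‖(fun i j => (x * h⁻¹ - 1) i j : Fin d → Fin d → ℝ)‖) := by
      refine continuous_norm.comp ?_
      have h1 : Continuous (fun x : Matrix (Fin d) (Fin d) ℝ => x * h⁻¹ - 1) :=
        (continuous_id.matrix_mul continuous_const).sub continuous_const
      exact continuous_pi fun i => continuous_pi fun j => (continuous_apply_apply i j).comp h1
    have hlt : ‖(fun i j => (h * h⁻¹ - 1) i j : Fin d → Fin d → ℝ)‖ <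
        1 / ((n : ℝ) + 1) := by
      rw [Matrix.mul_nonsing_inv _ hu, sub_self]
      have h1 : (fun i j => (0 : Matrix (Fin d) (Fin d) ℝ) i j : Fin d → Fin d → ℝ) = 0 := rfl
      rw [h1, norm_zero]
      positivity
    have hev := (hcont.tendsto h).eventually (gt_mem_nhds hlt)
    obtain ⟨x, hx1, t, γ, ht, hγ, hx⟩ := mem_closure_iff_nhds.1 (hrec n) _ hev
    refine ⟨t, γ, (fun i j => (x * h⁻¹ - 1) i j : Fin d → Fin d → ℝ), ht, hγ, hx1, ?_⟩
    have h1 : (1 + Matrix.of (fun i j => (x * h⁻¹ - 1) i j) : Matrix (Fin d) (Fin d) ℝ) =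
        x * h⁻¹ := by
      have h2 : (Matrix.of (fun i j => (x * h⁻¹ - 1) i j) : Matrix (Fin d) (Fin d) ℝ) =
        x * h⁻¹ - 1 := rfl
      rw [h2, add_sub_cancel]
    rw [h1, Matrix.mul_assoc, Matrix.nonsing_inv_mul _ hu, Matrix.mul_one]
    exact hx
  choose t γ X ht hγ hXn hXE using hseq
  have hXM : ∀ n, (1 + Matrix.of (X n)) * h ∈ M := by
    intro n
    rw [hXE]
    exact hMinv h hhM _ _ (ew_pos _ _) (ew_prod (wI_sum I) _) (hγ n)
  -- a general consequence of frequent entries in a block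
  have hfin : ∀ θ : Fin d → ℝ, ∑ i, θ i = 0 → (∀ i j, θ j < θ i → (i ∈ I ∧ j ∉ I)) →
      (∃ᶠ n in atTop, ∃ i j, θ j < θ i ∧ X n i j ≠ 0) →
      ∃ (h : Matrix (Fin d) (Fin d) ℝ) (i j : Fin d) (s : ℝ), i ≠ j ∧
      (i ∈ I ∧ j ∉ I) ∧ s ≠ 0 ∧ h ∈ M ∧ uu i j s * h ∈ M := by
    intro θ hθ hθI hfr
    obtain ⟨h1, Z, hZ0, hZup, hPr⟩ := exists_upper' hd0 hV hν hMdet hMnu hMmin.1 hMinv hhM θ hθ X
      hXM hXn hfr
    obtain ⟨h2, i, j, s, hij, hs, hZij, hPr2⟩ := exists_single' hd0 hV hν hMdet hMnu hMmin.1 hMinv θ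
      _ h1 Z hZ0 hZup hPr le_rfl
    refine ⟨h2, i, j, s, hij, hθI i j ?_, hs, hPr2.1, ?_⟩
    · by_contra hcon
      exact hZij (hZup i j (not_lt.1 hcon))
    · have h3 := hPr2.2.2
      rw [one_smul] at h3
      have h4 : (1 + Matrix.of (fun k l => if k = i ∧ l = j then s else 0) :
          Matrix (Fin d) (Fin d) ℝ) = uu i j s := by
        unfold uu
        congr 1
        ext k l
        simp only [Matrix.of_apply, Matrix.single_apply]
        by_cases hkl : k = i ∧ l = j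
        · rw [if_pos hkl, if_pos ⟨hkl.1.symm, hkl.2.symm⟩]
        · rw [if_neg hkl, if_neg fun h => hkl ⟨h.1.symm, h.2.symm⟩]
      rw [h4] at h3
      exact h3
  set θ : Fin d → ℝ := fun k => (if k ∈ I then 1 else 0) - (I.card : ℝ) / d with hθ
  have hθsum : ∑ k, θ k = 0 := by
    simp only [hθ]
    rw [Finset.sum_sub_distrib, Finset.sum_const, Finset.card_univ, Fintype.card_fin,
      ← Finset.sum_filter]
    simp only [Finset.filter_mem_eq_inter, Finset.univ_inter, Finset.sum_const, nsmul_eq_mul]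
    field_simp
    ring
  have hθlt : ∀ i j, θ j < θ i ↔ (i ∈ I ∧ j ∉ I) := by
    intro i j
    simp only [hθ]
    by_cases hi : i ∈ I <;> by_cases hj : j ∈ I <;> simp [hi, hj]
  by_cases hfr1 : ∃ᶠ n in atTop, ∃ i j, θ j < θ i ∧ X n i j ≠ 0
  · exact hfin θ hθsum (fun i j hij => (hθlt i j).1 hij) hfr1
  · -- block triangular returns
    exfalso
    have hev : ∀ᶠ n in atTop, ∀ i j, θ j < θ i → X n i j = 0 := by
      refine (not_frequently.1 hfr1).mono fun n hn i j hij => ?_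
      by_contra h0
      exact hn ⟨i, j, hij, h0⟩
    obtain ⟨n₁, hn₁⟩ := exists_nat_gt ((d : ℝ) * Real.log 2)
    obtain ⟨n₂, hn₂⟩ := exists_nat_gt (2 * (d : ℝ))
    obtain ⟨n, hn, hnn⟩ := (hev.and (eventually_ge_atTop (max n₁ n₂))).exists
    have hnn1 : (n₁ : ℝ) ≤ n := by exact_mod_cast (le_max_left _ _).trans hnn
    have hnn2 : (n₂ : ℝ) ≤ n := by exact_mod_cast (le_max_right _ _).trans hnn
    refine no_block hd hg hν hnu hint (hY (hMY hhM)) I hI (t n)
      (hn₁.trans_le (hnn1.trans (ht n))) (γ n) (hγ n) (1 + Matrix.of (X n)) (hXE n) ?_ ?_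
    · intro i
      rw [add_sub_cancel_left]
      have h1 : ∀ j ∈ Finset.univ, |(Matrix.of (X n) : Matrix (Fin d) (Fin d) ℝ) i j| ≤
          1 / ((n : ℝ) + 1) := fun j _ => (abs_le_norm (X n) i j).trans (hXn n).le
      refine (Finset.sum_le_sum h1).trans ?_
      rw [Finset.sum_const, Finset.card_univ, Fintype.card_fin, nsmul_eq_mul, mul_one_div,
        div_le_div_iff₀ (by positivity) (by norm_num)]
      have : (0 : ℝ) ≤ n := Nat.cast_nonneg n
      linarith
    · intro i hi j hj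
      have hij : i ≠ j := fun h => hj (h ▸ hi)
      rw [Matrix.add_apply, Matrix.one_apply_ne hij, zero_add, Matrix.of_apply]
      exact hn i j ((hθlt i j).2 ⟨hi, hj⟩)

end Pool.Agent.TH223.W
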